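import Pool.Agent.Helper23T.CutM

/-!
# The number of critical points of holomorphic maps close to a given one
-/

set_option autoImplicit false
set_option linter.unusedSectionVars false

open Set Filter Topology Metric
open scoped OnePoint

noncomputable section

namespace Pool.Agent.Helper23V

/-- Cauchy's estimate -/
theorem dclose {Ω : Set ℂ} (hΩ : IsOpen Ω) {f g : ℂ → ℂ} (hf : DifferentiableOn ℂ f Ω)
    (hg : DifferentiableOn ℂ g Ω) {δ r : ℝ} (hr : 0 < r) (h : ∀ z ∈ Ω, ‖g z - f z‖ ≤ δ) {z : ℂ}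
    (hz : closedBall z r ⊆ Ω) : ‖deriv g z - deriv f z‖ ≤ δ / r := by
  have hzm : z ∈ Ω := hz (mem_closedBall_self hr.le)
  have hd : DifferentiableOn ℂ (fun w => g w - f w) Ω := hg.sub hf
  have h1 := Complex.norm_deriv_le_of_forall_mem_sphere_norm_le (c := z) (R := r) (C := δ)
    (f := fun w => g w - f w) hr ((hd.mono hz).diffContOnCl_ball subset_rfl)
    (fun w hw => h w (hz (sphere_subset_closedBall hw)))
  have h2 : deriv (fun w => g w - f w) z = deriv g z - deriv f z :=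
    deriv_sub (hg.differentiableAt (hΩ.mem_nhds hzm)) (hf.differentiableAt (hΩ.mem_nhds hzm))
  rwa [h2] at h1

/-- the property of the count -/
def CountOn (Ω : Set ℂ) (f : ℂ → ℂ) (s : Set ℂ) : Prop :=
  ∃ N0 : ℕ, ∃ δ0 > 0, ∀ g : ℂ → ℂ, DifferentiableOn ℂ g Ω → (∀ z ∈ Ω, ‖g z - f z‖ ≤ δ0) →
    ∀ S : Finset ℂ, (∀ c ∈ S, c ∈ s ∧ deriv g c = 0) → S.card ≤ N0

theorem count_loc {Ω : Set ℂ} (hΩ : IsOpen Ω) {f : ℂ → ℂ} (hf : DifferentiableOn ℂ f Ω) {c : ℂ}
    (hc : c ∈ Ω) (hne : ∃ᶠ z in 𝓝 c, deriv f z ≠ 0) : ∃ O ∈ 𝓝 c, CountOn Ω f O := by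
  obtain ⟨r, hr, hrΩ⟩ := Metric.isOpen_iff.1 hΩ c hc
  set R : ℝ := r / 8 with hR
  have hR0 : 0 < R := by positivity
  have hsub : ∀ z, ‖z - c‖ ≤ 4 * R → closedBall z R ⊆ Ω := by
    intro z hz w hw
    apply hrΩ
    rw [mem_ball, dist_eq_norm]
    rw [mem_closedBall, dist_eq_norm] at hw
    have := norm_add_le (w - z) (z - c)
    rw [sub_add_sub_cancel] at this
    linarith
  have hmem : ∀ z, ‖z - c‖ ≤ 4 * R → z ∈ Ω := fun z hz => hsub z hz (mem_closedBall_self hR0.le)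
  obtain ⟨c0, hne0, hc0⟩ := (hne.and_eventually (ball_mem_nhds c (show 0 < R / 10 by positivity))).exists
  rw [dist_eq_norm] at hc0
  have hfd : DifferentiableOn ℂ (deriv f) Ω := hf.deriv hΩ
  have hK : IsCompact (closedBall c (4 * R)) := isCompact_closedBall _ _
  obtain ⟨M1, hM1⟩ := hK.exists_bound_of_continuousOn (f := deriv f) (hfd.continuousOn.mono
    fun z hz => hmem z (by rwa [mem_closedBall, dist_eq_norm] at hz))
  set b := ‖deriv f c0‖ / 2 with hb
  have hb0 : 0 < b := by have := norm_pos_iff.2 hne0; positivity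
  obtain ⟨N0, hN0⟩ := pow_unbounded_of_one_lt ((M1 + 1) / b) (show (1 : ℝ) < 3 / 2 by norm_num)
  set δ0 : ℝ := min R (b * R) with hδ0
  have hδ0p : 0 < δ0 := lt_min hR0 (by positivity)
  refine ⟨ball c R, ball_mem_nhds c hR0, N0, δ0, hδ0p, fun g hg hgf S hS => ?_⟩
  by_contra hcard
  push Not at hcard
  have hg' : DifferentiableOn ℂ (deriv g) Ω := hg.deriv hΩ
  have hdc : ∀ z, ‖z - c‖ ≤ 4 * R → ‖deriv g z - deriv f z‖ ≤ δ0 / R := fun z hz =>
    dclose hΩ hf hg hR0 hgf (hsub z hz)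
  have hd1 : δ0 / R ≤ 1 := by
    rw [div_le_one hR0]
    exact min_le_left _ _
  have hd2 : δ0 / R ≤ b := by
    rw [div_le_iff₀ hR0]
    exact min_le_right _ _
  have hcb := H353.count_bound Ω hΩ (deriv g) hg' c0
    (11 / 10 * R) (19 / 10 * R) (M1 + 1) (by linarith) (by linarith)
    (by
      intro w hw
      rw [mem_closedBall, dist_eq_norm] at hw
      apply hmem
      have := norm_add_le (w - c0) (c0 - c)
      rw [sub_add_sub_cancel] at this
      linarith)
    (by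
      intro v hv
      rw [mem_sphere, dist_eq_norm] at hv
      have h1 := norm_add_le (v - c0) (c0 - c)
      rw [sub_add_sub_cancel] at h1
      have hv2 : ‖v - c‖ ≤ 4 * R := by linarith
      have h2 := hdc v hv2
      have h3 := hM1 v (by rw [mem_closedBall, dist_eq_norm]; exact hv2)
      have h4 := norm_sub_norm_le (deriv g v) (deriv f v)
      linarith)
    S (fun _ => 1)
    (by
      intro z hz
      have h1 := (hS z hz).1
      rw [mem_ball, dist_eq_norm] at h1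
      rw [mem_closedBall, dist_eq_norm]
      have := norm_sub_le (z - c) (c0 - c)
      rw [sub_sub_sub_cancel_right] at this
      linarith)
    (by
      intro z hz
      have h1 := (hS z hz).1
      rw [mem_ball, dist_eq_norm] at h1
      have hcm : z ∈ Ω := hmem z (by linarith)
      have han : AnalyticAt ℂ (deriv g) z := hg'.analyticAt (hΩ.mem_nhds hcm)
      have h1 : analyticOrderAt (deriv g) z ≠ 0 := han.analyticOrderAt_ne_zero.2 (hS z hz).2
      exact_mod_cast Order.one_le_iff_ne_zero.2 h1)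
  have h1 : b ≤ ‖deriv g c0‖ := by
    have h2 := hdc c0 (by linarith)
    have h3 := norm_sub_norm_le (deriv f c0) (deriv g c0)
    rw [norm_sub_rev] at h3
    have h5 : ‖deriv f c0‖ = 2 * b := by rw [hb]; ring
    linarith
  have h2 : (19 / 10 * R) / (11 / 10 * R) = 19 / 11 := by
    have : R ≠ 0 := by linarith
    field_simp
  rw [h2, Finset.sum_const, smul_eq_mul, mul_one] at hcb
  have h3 : (3 / 2 : ℝ) ^ N0 ≤ (19 / 11) ^ S.card :=
    calc (3 / 2 : ℝ) ^ N0 ≤ (3 / 2) ^ S.card := pow_le_pow_right₀ (by norm_num) hcard.le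
      _ ≤ _ := pow_le_pow_left₀ (by norm_num) (by norm_num) _
  rw [div_lt_iff₀ hb0] at hN0
  have h4 : b * (3 / 2 : ℝ) ^ N0 ≤ ‖deriv g c0‖ * (19 / 11) ^ S.card :=
    mul_le_mul h1 h3 (by positivity) (norm_nonneg _)
  linarith

theorem count {Ω : Set ℂ} (hΩ : IsOpen Ω) {f : ℂ → ℂ} (hf : DifferentiableOn ℂ f Ω) {K : Set ℂ}
    (hK : IsCompact K) (hKΩ : K ⊆ Ω) (hne : ∀ c ∈ K, ∃ᶠ z in 𝓝 c, deriv f z ≠ 0) :
    CountOn Ω f K := by
  classical
  refine hK.induction_on (p := CountOn Ω f) ?_ ?_ ?_ ?_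
  · refine ⟨0, 1, one_pos, fun g _ _ S hS => ?_⟩
    rw [Nat.le_zero, Finset.card_eq_zero, Finset.eq_empty_iff_forall_notMem]
    intro c hc
    exact (hS c hc).1
  · rintro s t hst ⟨N, δ, hδ, h⟩
    exact ⟨N, δ, hδ, fun g hg hgf S hS => h g hg hgf S fun c hc => ⟨hst (hS c hc).1, (hS c hc).2⟩⟩
  · rintro s t ⟨N, δ, hδ, h⟩ ⟨N', δ', hδ', h'⟩
    refine ⟨N + N', min δ δ', lt_min hδ hδ', fun g hg hgf S hS => ?_⟩
    have h1 := h g hg (fun z hz => (hgf z hz).trans (min_le_left _ _)) (S.filter (· ∈ s))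
      fun c hc => ⟨(Finset.mem_filter.1 hc).2, (hS c (Finset.mem_filter.1 hc).1).2⟩
    have h2 := h' g hg (fun z hz => (hgf z hz).trans (min_le_right _ _)) (S.filter (¬ · ∈ s))
      fun c hc => ⟨((hS c (Finset.mem_filter.1 hc).1).1).resolve_left (Finset.mem_filter.1 hc).2,
        (hS c (Finset.mem_filter.1 hc).1).2⟩
    have h3 := Finset.card_filter_add_card_filter_not (s := S) (fun c => c ∈ s)
    omega
  · intro c hc
    obtain ⟨O, hO, h⟩ := count_loc hΩ hf (hKΩ hc) (hne c hc)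
    exact ⟨O, mem_nhdsWithin_of_mem_nhds hO, h⟩

end Pool.Agent.Helper23V
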