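import Pool.Agent.Helper23V.CountG

/-!
# Interpolation between a rational map near its attracting cycles and an arbitrary holomorphic map
-/

set_option autoImplicit false
set_option linter.unusedSectionVars false

open Set Filter Topology Metric
open scoped OnePoint

noncomputable section

namespace Pool.Agent.Helper23V

open Pool.Agent.H790R3.RB (CV hF ND sp pr hc pol HypTop Sink Attd PQ SP)
open Pool.Agent.Split938 (dbar)
open Pool.Agent.Helper23S Pool.Agent.Helper23T

variable {d : ℕ}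

/-- the region where the approximating map is used -/
def Om (χ : ℂ → ℝ) : Set ℂ := {z | χ z < 1}

/-- the approximating map `g`, with finite part `γ`, is `η`-close to `x` -/
structure Near (x : CV d) (χ : ℂ → ℝ) (g : OnePoint ℂ → OnePoint ℂ) (γ : ℂ → ℂ) (η : ℝ) :
    Prop where
  hol : DifferentiableOn ℂ γ (Om χ)
  fin : ∀ z ∈ Om χ, g z = (γ z : OnePoint ℂ)
  cl : ∀ z ∈ Om χ, ‖γ z - fp x z‖ < η

section

variable {x : CV d} {U0 : Set (OnePoint ℂ)} {Z : Finset ℂ} {χ : ℂ → ℝ} {a0 b0 ρ : ℝ}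

theorem Om_open (D : Data x U0 Z χ a0 b0 ρ) : IsOpen (Om χ) :=
  isOpen_lt D.χs.continuous continuous_const

theorem Om_diff (D : Data x U0 Z χ a0 b0 ρ) : DifferentiableOn ℂ (fp x) (Om χ) := by
  intro z hz
  refine (fp_diff ?_).differentiableWithinAt
  intro h0
  have h1 := D.χ1 z (D.ZU z ((D.Zr z).2 h0))
  have h2 : χ z < 1 := hz
  linarith

/-- closeness of the values and of the derivatives, and the number of critical points -/
theorem near_close (D : Data x U0 Z χ a0 b0 ρ) {η : ℝ} (hη : 0 < η) : ∃ N0 : ℕ, ∃ η0 > 0,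
    ∀ g γ, Near x χ g γ η0 → (∀ z, χ z ≤ b0 → ‖γ z - fp x z‖ < η ∧
      ‖deriv γ z - deriv (fp x) z‖ ≤ η) ∧
      ∀ S : Finset ℂ, (∀ c ∈ S, χ c ≤ b0 ∧ deriv γ c = 0) → S.card ≤ N0 := by
  have hΩ := Om_open D
  have hfd := Om_diff D
  have hK := D.comp
  have hKΩ : {z : ℂ | χ z ≤ b0} ⊆ Om χ := fun z (hz : χ z ≤ b0) => lt_of_le_of_lt hz D.b1
  obtain ⟨r, hr, hrs⟩ := hK.exists_cthickening_subset_open hΩ hKΩ
  obtain ⟨N0, δ0, hδ0, hcount⟩ := count hΩ hfd hK hKΩ (by
    intro c hc
    obtain ⟨Cr, -, hCr⟩ := crit_card D.d2 D.nd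
    intro hcon
    have h1 : ∀ᶠ z in 𝓝 c, z ∈ Cr := by
      filter_upwards [hcon, hΩ.mem_nhds (hKΩ hc)] with z hz1 hz2
      refine hCr z ?_ (not_not.1 hz1)
      intro h0
      have h1 := D.χ1 z (D.ZU z ((D.Zr z).2 h0))
      have h2 : χ z < 1 := hz2
      linarith
    exact (infinite_of_mem_nhds c h1) Cr.finite_toSet)
  refine ⟨N0, min (min η (η * r)) δ0, lt_min (lt_min hη (by positivity)) hδ0, fun g γ h => ⟨fun z hz => ⟨?_, ?_⟩, ?_⟩⟩
  · exact (h.cl z (hKΩ hz)).trans_le ((min_le_left _ _).trans (min_le_left _ _))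
  · have h1 := dclose hΩ hfd h.hol hr (fun z hz => (h.cl z hz).le)
      ((Metric.closedBall_subset_cthickening (show z ∈ {z : ℂ | χ z ≤ b0} from hz) r).trans hrs)
    refine h1.trans ?_
    rw [div_le_iff₀ hr]
    exact (min_le_left _ _).trans (min_le_right _ _)
  · exact hcount γ h.hol fun z hz => (h.cl z hz).le.trans (min_le_right _ _)

/-- **Interpolation.** -/
theorem cutG (D : Data x U0 Z χ a0 b0 ρ) {κ : ℝ} (hκ0 : 0 < κ) (hκ : κ ≤ 1 / 40) :
    ∃ η0 > 0, ∀ g γ, Near x χ g γ η0 → (∀ z : ℂ, a0 ≤ χ z → χ z ≤ b0 → g z ∈ U0) ∧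
      ∃ a b : ℝ, a0 < a ∧ a < b ∧ b < b0 ∧
      QM ρ κ {z | a ≤ χ z ∧ χ z ≤ b} {z : ℂ | (z : OnePoint ℂ) ∈ U0} Z
        (itq χ a b (fp x) γ) (Gm x Z (itq χ a b (fp x) γ)) ∧
      (∀ z ∈ U0, Gm x Z (itq χ a b (fp x) γ) z = sp x z) ∧
      (∀ z ∉ Dm χ a0, Gm x Z (itq χ a b (fp x) γ) z = g z) ∧
      ∀ z ∈ Dm χ a0, Gm x Z (itq χ a b (fp x) γ) z ∈ U0 := by
  have hχc := D.χs.continuous
  have hcomp := D.comp
  have hab := D.ab
  have hb1 := D.b1
  have ha0 := D.apos
  -- the number of critical points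
  obtain ⟨N0, η1, hη1, hN0⟩ := near_close D one_pos
  -- the shells
  set M : ℝ := (N0 : ℝ) + 1 with hM
  have hM0 : 0 < M := by positivity
  set A : ℕ → ℝ := fun i => a0 + (b0 - a0) * ((i + 1 / 3) / M) with hA
  set B : ℕ → ℝ := fun i => a0 + (b0 - a0) * ((i + 2 / 3) / M) with hB
  have hA0 : ∀ i, a0 < A i := by
    intro i
    have : 0 < (b0 - a0) * (((i : ℝ) + 1 / 3) / M) := mul_pos (by linarith) (by positivity)
    rw [hA]
    simp only
    linarith
  have hAB : ∀ i, A i < B i := by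
    intro i
    rw [hA, hB]
    simp only
    have h1 : ((i : ℝ) + 1 / 3) / M < ((i : ℝ) + 2 / 3) / M := by gcongr; norm_num
    have h2 : 0 < b0 - a0 := by linarith
    nlinarith
  have hB1 : ∀ i, i < N0 + 1 → B i < b0 := by
    intro i hi
    have h1 : (i : ℝ) + 1 ≤ M := by
      have : i + 1 ≤ N0 + 1 := hi
      have h2 : ((i + 1 : ℕ) : ℝ) ≤ ((N0 + 1 : ℕ) : ℝ) := by exact_mod_cast this
      push_cast at h2
      exact h2
    rw [hB]
    simp only
    have h2 : ((i : ℝ) + 2 / 3) / M < 1 := by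
      rw [div_lt_one hM0]
      linarith
    have h3 : 0 < b0 - a0 := by linarith
    nlinarith
  -- bounds for the cutoffs
  have hbd : ∀ i : ℕ, ∃ C, 0 ≤ C ∧ ∀ z, χ z ≤ b0 →
      ‖dd (fun z => (th χ (A i) (B i) z : ℂ)) z‖ ≤ C ∧
        ‖dbar (fun z => (th χ (A i) (B i) z : ℂ)) z‖ ≤ C := by
    intro i
    obtain ⟨h1, h2⟩ : Continuous (dd (fun z => (th χ (A i) (B i) z : ℂ))) ∧
        Continuous (dbar (fun z => (th χ (A i) (B i) z : ℂ))) := by
      constructor <;> rw [continuous_iff_continuousAt] <;> intro z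
      · exact (dd_smoothAt (thC_smooth D.χs (A i) (B i)).contDiffAt).1.continuousAt
      · exact (dd_smoothAt (thC_smooth D.χs (A i) (B i)).contDiffAt).2.continuousAt
    obtain ⟨C1, hC1⟩ := hcomp.exists_bound_of_continuousOn h1.continuousOn
    obtain ⟨C2, hC2⟩ := hcomp.exists_bound_of_continuousOn h2.continuousOn
    refine ⟨max 0 (max C1 C2), le_max_left _ _, fun z hz => ⟨?_, ?_⟩⟩
    · exact (hC1 z hz).trans ((le_max_left _ _).trans (le_max_right _ _))
    · exact (hC2 z hz).trans ((le_max_right _ _).trans (le_max_right _ _))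
  choose Cb hCb0 hCb using hbd
  set Cs : ℝ := 1 + ∑ i ∈ Finset.range (N0 + 1), Cb i with hCs
  have hCs1 : 1 ≤ Cs := by
    have : 0 ≤ ∑ i ∈ Finset.range (N0 + 1), Cb i := Finset.sum_nonneg fun i _ => hCb0 i
    linarith
  have hCi : ∀ i < N0 + 1, Cb i ≤ Cs := by
    intro i hi
    have := Finset.single_le_sum (f := Cb) (fun i _ => hCb0 i) (Finset.mem_range.2 hi)
    linarith
  -- lower bound of the derivative on the shell
  set S : Set ℂ := {z | a0 ≤ χ z ∧ χ z ≤ b0} with hS
  have hSc : IsCompact S := by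
    have : S = {z : ℂ | χ z ≤ b0} ∩ {z | a0 ≤ χ z} := by
      ext z
      exact and_comm
    rw [this]
    exact hcomp.inter_right (isClosed_le continuous_const hχc)
  have hder : ∃ m > 0, ∀ z ∈ S, m ≤ ‖deriv (fp x) z‖ := by
    rcases S.eq_empty_or_nonempty with h0 | h0
    · refine ⟨1, one_pos, fun z hz => ?_⟩
      rw [h0] at hz
      exact absurd hz (notMem_empty z)
    · have h1 : ContinuousOn (fun z => ‖deriv (fp x) z‖) S := by
        intro z hz
        have h2 : ContinuousAt (fun q : CV d × ℂ => deriv (fp q.1) q.2) (x, z) :=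
          deriv_cont (D.qd_ne hz.2)
        have h3 : ContinuousAt (fun z => deriv (fp x) z) z :=
          ContinuousAt.comp (f := fun z : ℂ => ((x, z) : CV d × ℂ))
            (g := fun q : CV d × ℂ => deriv (fp q.1) q.2) h2
            (continuous_const.prodMk continuous_id).continuousAt
        exact h3.norm.continuousWithinAt
      obtain ⟨z0, hz0, hmin⟩ := hSc.exists_isMinOn h0 h1
      exact ⟨_, norm_pos_iff.2 (D.nc z0 hz0.1 hz0.2), fun z hz => hmin hz⟩
  obtain ⟨m, hm0, hm⟩ := hder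
  -- the neighbourhood of the image of the shell
  have hVo : IsOpen {z : ℂ | (z : OnePoint ℂ) ∈ U0} := D.Uo.preimage OnePoint.continuous_coe
  obtain ⟨δ, hδ0, hδ⟩ : ∃ δ > 0, ∀ z ∈ S, ∀ w, ‖w - fp x z‖ < δ → (w : OnePoint ℂ) ∈ U0 := by
    have h1 : IsCompact (fp x '' S) := hSc.image_of_continuousOn fun z hz =>
      (fp_diff (D.qd_ne hz.2)).continuousAt.continuousWithinAt
    have h2 : fp x '' S ⊆ {z : ℂ | (z : OnePoint ℂ) ∈ U0} := by
      rintro _ ⟨z, hz, rfl⟩
      have h3 := D.χ0 z (lt_of_lt_of_le ha0 hz.1)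
      rw [sp_fin x (D.qd_ne hz.2)] at h3
      exact h3
    obtain ⟨δ, hδ, hsub⟩ := h1.exists_thickening_subset_open hVo h2
    refine ⟨δ, hδ, fun z hz w hw => ?_⟩
    apply hsub
    rw [mem_thickening_iff]
    exact ⟨fp x z, ⟨z, hz, rfl⟩, by rwa [dist_eq_norm]⟩
  -- the closeness
  set η : ℝ := min δ (κ * m / (8 * Cs)) with hη
  have hη0 : 0 < η := lt_min hδ0 (by positivity)
  have hηδ : η ≤ δ := min_le_left _ _
  have hηC : η * Cs ≤ κ * m / 8 := by
    have h1 : η ≤ κ * m / (8 * Cs) := min_le_right _ _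
    rw [le_div_iff₀ (by positivity)] at h1
    linarith
  have hηs : η ≤ κ * m / 8 := by nlinarith
  obtain ⟨_, η2, hη2, hcl2⟩ := near_close D hη0
  refine ⟨min η1 η2, lt_min hη1 hη2, fun g γ hgγ => ?_⟩
  have hcr := (hN0 g γ ⟨hgγ.hol, hgγ.fin, fun z hz => (hgγ.cl z hz).trans_le (min_le_left _ _)⟩).2
  have hy1 := (hcl2 g γ ⟨hgγ.hol, hgγ.fin, fun z hz => (hgγ.cl z hz).trans_le (min_le_right _ _)⟩).1
  have hΩ := Om_open D
  have hΩb : ∀ z, χ z ≤ b0 → z ∈ Om χ := fun z hz => lt_of_le_of_lt hz D.b1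
  have hγd : ∀ z, χ z ≤ b0 → DifferentiableAt ℂ γ z := fun z hz =>
    hgγ.hol.differentiableAt (hΩ.mem_nhds (hΩb z hz))
  have hgshell : ∀ z : ℂ, a0 ≤ χ z → χ z ≤ b0 → g z ∈ U0 := by
    intro z h1 h2
    rw [hgγ.fin z (hΩb z h2)]
    exact hδ z ⟨h1, h2⟩ _ ((hy1 z h2).1.trans_le hηδ)
  -- the choice of the shell
  classical
  obtain ⟨i, hiM, hi⟩ : ∃ i < N0 + 1, ∀ c, χ c < a0 → deriv γ c = 0 →
      i ≠ ⌊(entq χ a0 g c - a0) / (b0 - a0) * M⌋₊ := by
    by_contra hc
    push Not at hc
    choose! cc hcc1 hcc2 hcc3 using hc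
    have h0 := hcr ((Finset.range (N0 + 1)).image cc) (by
      intro c hc
      obtain ⟨i, hi, rfl⟩ := Finset.mem_image.1 hc
      rw [Finset.mem_range] at hi
      exact ⟨by linarith [hcc1 i hi], hcc2 i hi⟩)
    have h1 : Finset.range (N0 + 1) ⊆ ((Finset.range (N0 + 1)).image cc).image
        fun c => ⌊(entq χ a0 g c - a0) / (b0 - a0) * M⌋₊ := by
      intro i hi
      exact Finset.mem_image.2 ⟨cc i, Finset.mem_image_of_mem cc hi,
        (hcc3 i (Finset.mem_range.1 hi)).symm⟩
    have h2 := (Finset.card_le_card h1).trans Finset.card_image_le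
    rw [Finset.card_range] at h2
    omega
  set a := A i with ha
  set b := B i with hb
  have ha0' : a0 < a := hA0 i
  have hab' : a < b := hAB i
  have hbb : b < b0 := hB1 i hiM
  set u := itq χ a b (fp x) γ with hu
  set G := Gm x Z u with hG
  have hfl : ∀ t : ℝ, a ≤ t → t ≤ b → i = ⌊(t - a0) / (b0 - a0) * M⌋₊ := by
    intro t h1 h2
    have h3 : 0 < b0 - a0 := by linarith
    symm
    rw [Nat.floor_eq_iff (by
      have : 0 ≤ t - a0 := by linarith
      positivity)]
    rw [ha, hA] at h1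
    rw [hb, hB] at h2
    simp only at h1 h2
    have h4 : ((i : ℝ) + 1 / 3) / M ≤ (t - a0) / (b0 - a0) := by
      rw [le_div_iff₀ h3]
      linarith
    have h5 : (t - a0) / (b0 - a0) ≤ ((i : ℝ) + 2 / 3) / M := by
      rw [div_le_iff₀ h3]
      linarith
    rw [div_le_iff₀ hM0] at h4
    rw [le_div_iff₀ hM0] at h5
    constructor <;> linarith
  -- elementary properties of the cut map
  have hZχ : ∀ z ∈ Z, χ z = 1 := fun z hz => D.χ1 z (D.ZU z hz)
  have hZn : ∀ z, χ z ≤ b0 → z ∉ Z := by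
    intro z hz hZ
    have := hZχ z hZ
    linarith
  have hqx : ∀ z, z ∉ Z → qd x z ≠ 0 := fun z hz h => hz ((D.Zr z).2 h)
  have hGinf : G ∞ = sp x ∞ := rfl
  have hGZ : ∀ z ∈ Z, G z = ∞ := by
    intro z hz
    show (if z ∈ Z then (∞ : OnePoint ℂ) else (u z : OnePoint ℂ)) = ∞
    rw [if_pos hz]
  have hGn : ∀ z ∉ Z, G z = (u z : ℂ) := by
    intro z hz
    show (if z ∈ Z then (∞ : OnePoint ℂ) else (u z : OnePoint ℂ)) = _
    rw [if_neg hz]
  have hGout : ∀ z : ℂ, b ≤ χ z → G z = sp x z := by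
    intro z hz
    by_cases hZ : z ∈ Z
    · rw [hGZ z hZ, sp_pole x ((D.Zr z).1 hZ)]
    · rw [hGn z hZ, sp_fin x (hqx z hZ), hu, itq_out hab' hz]
  have hGin : ∀ z : ℂ, χ z ≤ a → G z = g z := by
    intro z hz
    rw [hGn z (hZn z (by linarith)), hgγ.fin z (hΩb z (by linarith)), hu, itq_in hab' hz]
  have hGU : ∀ z ∈ U0, G z = sp x z := by
    intro z hz
    induction z using OnePoint.rec with
    | infty => exact hGinf
    | coe z => exact hGout z (by rw [D.χ1 z hz]; linarith)
  have hGDm : ∀ z ∈ Dm χ a0, G z ∈ U0 := by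
    intro z hz
    induction z using OnePoint.rec with
    | infty => rw [hGinf]; exact D.tr _ (subset_closure D.inf)
    | coe z =>
      rw [mem_Dm] at hz
      rcases le_or_gt b (χ z) with h1 | h1
      · rw [hGout z h1]
        exact D.χ0 z (by linarith)
      · rw [hGn z (hZn z (by linarith))]
        refine hδ z ⟨hz, by linarith⟩ _ ?_
        have e : u z - fp x z = (th χ a b z : ℂ) * (γ z - fp x z) := by
          rw [hu]
          unfold itq
          ring
        rw [e, norm_mul, Complex.norm_real, Real.norm_eq_abs, abs_of_nonneg (th_mem z).1]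
        have h2 := (hy1 z (by linarith)).1
        exact (mul_le_of_le_one_left (norm_nonneg _) (th_mem z).2).trans_lt (h2.trans_le hηδ)
  have hGH : ∀ z ∉ Dm χ a0, G z = g z := by
    intro z hz
    induction z using OnePoint.rec with
    | infty => exact absurd inf_Dm hz
    | coe z =>
      rw [mem_Dm, not_le] at hz
      exact hGin z (by linarith)
  -- smoothness
  have hsm : ∀ z ∉ Z, ContDiffAt ℝ (⊤ : ℕ∞) u z := by
    intro z hz
    have h1 : ContDiffAt ℝ (⊤ : ℕ∞) (fp x) z := (fp_smooth (hqx z hz)).restrict_scalars ℝ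
    rcases lt_or_ge b (χ z) with h2 | h2
    · exact h1.congr_of_eventuallyEq (itq_near_out hχc hab' h2)
    · have h3 : ContDiffAt ℝ (⊤ : ℕ∞) γ z := by
        have h4 : AnalyticAt ℂ γ z := hgγ.hol.analyticAt (hΩ.mem_nhds (hΩb z (by linarith)))
        have h5 : ContDiffAt ℂ (⊤ : ℕ∞) γ z := h4.contDiffAt
        exact h5.restrict_scalars ℝ
      exact h1.add ((thC_smooth D.χs a b).contDiffAt.mul (h3.sub h1))
  -- holomorphy off the shell
  have hhol : ∀ z ∉ Z, z ∉ {z | a ≤ χ z ∧ χ z ≤ b} → dbar u z = 0 := by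
    intro z hz hzA
    rw [mem_ofPred_eq, not_and_or, not_le, not_le] at hzA
    rcases hzA with h1 | h1
    · rw [dbar_congr (itq_near_in hχc hab' h1)]
      exact hol_dbar (hγd z (by linarith)).hasDerivAt
    · rw [dbar_congr (itq_near_out hχc hab' h1)]
      exact hol_dbar (fp_diff (hqx z hz)).hasDerivAt
  -- estimates in the shell
  have hshell : ∀ z, a ≤ χ z → χ z ≤ b → m / 2 ≤ ‖dd u z‖ ∧ ‖dbar u z‖ ≤ κ * m / 8 := by
    intro z h1 h2
    have hzb : χ z ≤ b0 := by linarith
    obtain ⟨hc1, hc2⟩ := hy1 z hzb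
    obtain ⟨e3, e4⟩ := itq_der (a := a) (b := b) D.χs (fp_diff (D.qd_ne hzb)).hasDerivAt
      (hγd z hzb).hasDerivAt
    have h3 := hCb i z hzb
    have h4 := hCi i hiM
    constructor
    · rw [hu, e3]
      have h5 : ‖dd (fun z => (th χ a b z : ℂ)) z * (γ z - fp x z)‖ ≤ Cs * η := by
        rw [norm_mul]
        exact mul_le_mul (h3.1.trans h4) hc1.le (norm_nonneg _) (by linarith)
      have h6 : ‖(th χ a b z : ℂ) * (deriv γ z - deriv (fp x) z)‖ ≤ η := by
        rw [norm_mul, Complex.norm_real, Real.norm_eq_abs, abs_of_nonneg (th_mem z).1]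
        exact (mul_le_of_le_one_left (norm_nonneg _) (th_mem z).2).trans hc2
      have h7 := hm z ⟨by linarith, hzb⟩
      have h8 : ‖deriv (fp x) z‖ ≤ ‖deriv (fp x) z + th χ a b z * (deriv γ z - deriv (fp x) z) +
        dd (fun z => (th χ a b z : ℂ)) z * (γ z - fp x z)‖ +
          ‖(th χ a b z : ℂ) * (deriv γ z - deriv (fp x) z)‖ +
          ‖dd (fun z => (th χ a b z : ℂ)) z * (γ z - fp x z)‖ := by
        have e : deriv (fp x) z = (deriv (fp x) z + th χ a b z * (deriv γ z - deriv (fp x) z) +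
          dd (fun z => (th χ a b z : ℂ)) z * (γ z - fp x z)) -
          th χ a b z * (deriv γ z - deriv (fp x) z) -
          dd (fun z => (th χ a b z : ℂ)) z * (γ z - fp x z) := by ring
        conv_lhs => rw [e]
        exact (norm_sub_le _ _).trans (add_le_add (norm_sub_le _ _) le_rfl)
      have h9 : κ * m / 8 ≤ m / 8 := by nlinarith
      nlinarith
    · rw [hu, e4, norm_mul]
      calc ‖dbar (fun z => (th χ a b z : ℂ)) z‖ * ‖γ z - fp x z‖ ≤ Cs * η :=
            mul_le_mul (h3.2.trans h4) hc1.le (norm_nonneg _) (by linarith)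
        _ ≤ κ * m / 8 := by linarith
  -- continuity
  have hGc : Continuous G := by
    rw [continuous_iff_continuousAt]
    have hspc : Continuous (sp x) := Pool.Agent.H790R3.RB.SP.sp_cont D.nd
    have hout : ∀ z : OnePoint ℂ, z ∉ ((↑) '' {z : ℂ | χ z ≤ b} : Set (OnePoint ℂ)) →
        ContinuousAt G z := by
      intro z hz
      have hcl : IsClosed ((↑) '' {z : ℂ | χ z ≤ b} : Set (OnePoint ℂ)) := by
        have h1 : IsCompact {z : ℂ | χ z ≤ b} :=
          hcomp.of_isClosed_subset (isClosed_le hχc continuous_const) fun z (hz : χ z ≤ b) =>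
            hz.trans hbb.le
        exact (h1.image OnePoint.continuous_coe).isClosed
      have h2 : G =ᶠ[𝓝 z] sp x := by
        filter_upwards [hcl.isOpen_compl.mem_nhds hz] with w hw
        induction w using OnePoint.rec with
        | infty => exact hGinf
        | coe w =>
          refine hGout w ?_
          by_contra hc
          exact hw ⟨w, (not_le.1 hc).le, rfl⟩
      exact (hspc.continuousAt).congr h2.symm
    intro z
    induction z using OnePoint.rec with
    | infty =>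
      refine hout _ ?_
      rintro ⟨w, -, hw⟩
      exact OnePoint.coe_ne_infty w hw
    | coe z =>
      by_cases hz : χ z ≤ b
      · rw [OnePoint.continuousAt_coe]
        have hZ := hZn z (by linarith)
        have h1 : ContinuousAt (fun w : ℂ => (u w : OnePoint ℂ)) z :=
          ContinuousAt.comp (g := fun w : ℂ => (w : OnePoint ℂ))
            OnePoint.continuous_coe.continuousAt (hsm z hZ).continuousAt
        refine h1.congr ?_
        filter_upwards [Z_nhds Z hZ] with w hw
        exact (hGn w hw).symm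
      · refine hout _ ?_
        rintro ⟨w, hw, hwz⟩
        rw [OnePoint.coe_injective hwz] at hw
        exact hz hw
  refine ⟨hgshell, a, b, ha0', hab', hbb, ⟨D.ρ1, hκ0, hκ, hGc, hGZ, hGn, ?_, hVo, D.far, D.ZU, ?_, ?_, ?_,
    hsm, hhol, ?_, ?_⟩, hGU, hGH, hGDm⟩
  · exact (isClosed_le continuous_const hχc).inter (isClosed_le hχc continuous_const)
  · rintro z ⟨-, hz2⟩ hzV
    have := D.χ1 z hzV
    linarith
  · intro z hz hZ
    have h1 := D.tr z (subset_closure hz)
    rw [sp_fin x (hqx z hZ)] at h1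
    have h2 : u z = fp x z := itq_out hab' (by rw [D.χ1 z hz]; linarith)
    show ((u z : ℂ) : OnePoint ℂ) ∈ U0
    rw [h2]
    exact h1
  · rintro z ⟨hz1, hz2⟩
    have h1 := hGDm z (mem_Dm.2 (by linarith))
    rw [hGn z (hZn z (by linarith))] at h1
    exact h1
  · intro z hZ
    by_cases hz : z ∈ {z | a ≤ χ z ∧ χ z ≤ b}
    · obtain ⟨h1, h2⟩ := hshell z hz.1 hz.2
      nlinarith
    · rw [hhol z hZ hz, norm_zero]
      positivity
  · -- the critical orbits
    intro c hZ hc j w hj hw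
    have hwD : (w : OnePoint ℂ) ∈ Dm χ a0 := mem_Dm.2 (by linarith [hw.1])
    have hwU : (w : OnePoint ℂ) ∉ U0 := by
      intro h
      have := D.χ1 w h
      linarith [hw.2]
    have hUst : ∀ z ∈ U0, ∀ k : ℕ, G^[k] z ∈ U0 := by
      intro z hz k
      induction k with
      | zero => exact hz
      | succ k ih =>
        rw [Function.iterate_succ_apply']
        exact hGDm _ (D.UD ih)
    have hcA : ¬ (a ≤ χ c ∧ χ c ≤ b) := by
      intro h
      have := (hshell c h.1 h.2).1
      rw [hc, norm_zero] at this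
      linarith
    -- the orbit cannot be in the trapping set before
    have hbefore : ∀ k < j, G^[k] c ∉ Dm χ a0 := by
      intro k hk hkD
      have h1 := hUst _ (hGDm _ hkD) (j - (k + 1))
      rw [← Function.iterate_succ_apply' G k, ← Function.iterate_add_apply] at h1
      rw [show j - (k + 1) + (k + 1) = j by omega, hj] at h1
      exact hwU h1
    rcases Nat.eq_zero_or_pos j with h0 | h0
    · subst h0
      have : (c : OnePoint ℂ) = w := hj
      rw [OnePoint.coe_injective this] at hcA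
      exact hcA hw
    · have hcD := hbefore 0 h0
      have hcχ : χ c < a0 := by
        have h1 : (c : OnePoint ℂ) ∉ Dm χ a0 := hcD
        rw [mem_Dm, not_le] at h1
        exact h1
      have hcC : deriv γ c = 0 := by
        rw [← hc, dd_congr (itq_near_in hχc hab' (by linarith))]
        exact (hol_dd (hγd c (by linarith)).hasDerivAt).symm
      have hag : ∀ k ≤ j, G^[k] c = g^[k] c := by
        intro k
        induction k with
        | zero => intro _; rfl
        | succ k ih =>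
          intro hk
          rw [Function.iterate_succ_apply', Function.iterate_succ_apply', ← ih (by omega)]
          exact hGH _ (hbefore k (by omega))
      have hex : ∃ k : ℕ, g^[k] c ∈ Dm χ a0 := ⟨j, by rw [← hag j le_rfl, hj]; exact hwD⟩
      have hfind : Nat.find hex = j := by
        rw [Nat.find_eq_iff]
        refine ⟨by rw [← hag j le_rfl, hj]; exact hwD, fun k hk => ?_⟩
        rw [← hag k hk.le]
        exact hbefore k hk
      have hent : entq χ a0 g c = χ w := by
        unfold entq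
        rw [dif_pos hex]
        have h2 : ∃ w : ℂ, g^[Nat.find hex] c = w := ⟨w, by rw [hfind, ← hag j le_rfl, hj]⟩
        rw [dif_pos h2]
        have h3 : g^[Nat.find hex] c = ((h2.choose : ℂ) : OnePoint ℂ) := h2.choose_spec
        have h5 : g^[Nat.find hex] c = (w : OnePoint ℂ) := by rw [hfind, ← hag j le_rfl, hj]
        rw [OnePoint.coe_injective (h3.symm.trans h5)]
      apply hi c hcχ hcC
      rw [hent]
      exact hfl _ hw.1 hw.2

end

end Pool.Agent.Helper23V
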