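import Pool.Agent.Helper23T.DynM

/-!
# Dynamics of the cut map, for maps which are only controlled off the trapping set
-/

set_option autoImplicit false
set_option linter.unusedSectionVars false

open Set Filter Topology Metric
open scoped OnePoint

noncomputable section

namespace Pool.Agent.Helper23V

open Pool.Agent.H790R3.RB (HypTop Sink Attd)
open Pool.Agent.Helper23T

variable {F g G : OnePoint ℂ → OnePoint ℂ} {U0 Dm : Set (OnePoint ℂ)}

/-- critical points whose orbits stay off `V` are attracted -/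
def OutHyp (V : Set (OnePoint ℂ)) (g : OnePoint ℂ → OnePoint ℂ) : Prop :=
  ∀ c : OnePoint ℂ, (∀ k : ℕ, g^[k] c ∉ V) → (¬ ∃ U ∈ 𝓝 c, InjOn g U) → Attd g c

/-- hyperbolicity in the strong sense -/
def SHyp (f : OnePoint ℂ → OnePoint ℂ) : Prop :=
  ∀ c : OnePoint ℂ, (¬ ∃ U ∈ 𝓝 c, InjOn f U) → Attd f c

theorem outHyp_of {V : Set (OnePoint ℂ)} (h : SHyp g) : OutHyp V g := fun c _ hc => h c hc

/-- continuity of the iterates -/
theorem iter_cont (hg : ∀ z ∉ Dm, ContinuousAt g z) {a : OnePoint ℂ} (j : ℕ)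
    (h : ∀ i < j, g^[i] a ∉ Dm) : ContinuousAt g^[j] a := by
  induction j with
  | zero => exact continuousAt_id
  | succ j ih =>
    rw [Function.iterate_succ']
    exact ContinuousAt.comp (hg _ (h j (by omega))) (ih fun i hi => h i (by omega))

/-- the points where the cut map is not locally injective are attracted -/
theorem dynG (hG : Continuous G) (hU : IsOpen U0) (hD : IsClosed Dm)
    (hUD : U0 ⊆ Dm) (h1 : ∀ z ∈ closure U0, F z ∈ U0) (h2 : ∀ z ∈ U0, Attd F z)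
    (hGF : ∀ z ∈ U0, G z = F z) (hGg : ∀ z ∉ Dm, G z = g z)
    (hgc : ∀ z ∈ closure Dmᶜ, ContinuousAt g z) (hgD : ∀ z ∈ Dm, z ∈ closure Dmᶜ → g z ∈ U0)
    (hGD : ∀ z ∈ Dm, G z ∈ U0) (hH : OutHyp U0 g) {c : OnePoint ℂ}
    (hc : ¬ ∃ U ∈ 𝓝 c, InjOn G U) : Attd G c := by
  have key : ∀ j : ℕ, G^[j] c ∈ Dm → Attd G c := by
    intro j hj
    refine attd_of_iter hG (j + 1) ?_
    rw [Function.iterate_succ_apply']
    exact attd_in hU h1 h2 hGF (hGD _ hj)
  by_cases hcD : c ∈ Dm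
  · exact key 0 hcD
  -- `g` is not locally injective
  have hcg : ¬ ∃ U ∈ 𝓝 c, InjOn g U := by
    rintro ⟨U, hUc, hinj⟩
    refine hc ⟨U ∩ Dmᶜ, inter_mem hUc (hD.isOpen_compl.mem_nhds hcD), ?_⟩
    intro a ha b hb hab
    rw [hGg a ha.2, hGg b hb.2] at hab
    exact hinj ha.1 hb.1 hab
  by_cases hex : ∃ j : ℕ, g^[j] c ∈ Dm
  · classical
    refine key (Nat.find hex) ?_
    rw [iter_eq_of hGg _ fun l hl => Nat.find_min hex hl]
    exact Nat.find_spec hex
  push Not at hex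
  have hGgc : ∀ k, G^[k] c = g^[k] c := fun k => iter_eq_of hGg k fun l _ => hex l
  obtain ⟨n, a, ⟨hn, hfix, U, hUn, hUV⟩, ht⟩ := hH c (fun k hk => hex k (hUD hk)) hcg
  have hgc' : ∀ z ∉ Dm, ContinuousAt g z := fun z hz => hgc z (subset_closure hz)
  -- the cycle is outside `Dm`
  have hcyc : ∀ i : ℕ, g^[i] a ∉ Dm := by
    intro i
    induction i using Nat.strong_induction_on with
    | _ i ih =>
      intro hi
      have h3 : Tendsto (fun k : ℕ => g^[i] (g^[n * k] c)) atTop (𝓝 (g^[i] a)) :=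
        (iter_cont hgc' i ih).tendsto.comp ht
      have h4 : g^[i] a ∈ closure Dmᶜ := by
        refine mem_closure_of_tendsto h3 (Eventually.of_forall fun k => ?_)
        rw [← Function.iterate_add_apply]
        exact hex _
      have h5 := hgD _ hi h4
      have h6 : Tendsto (fun k : ℕ => g (g^[i] (g^[n * k] c))) atTop (𝓝 (g (g^[i] a))) :=
        (hgc _ h4).tendsto.comp h3
      obtain ⟨k, hk⟩ := (h6.eventually (hU.mem_nhds h5)).exists
      rw [← Function.iterate_succ_apply' g, ← Function.iterate_add_apply] at hk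
      exact hex _ (hUD hk)
  -- the neighbourhood
  have hcont : ∀ j : ℕ, ContinuousAt g^[j] a := fun j => iter_cont hgc' j fun i _ => hcyc i
  have hpre : ∀ j : ℕ, {w | g^[j] w ∉ Dm} ∈ 𝓝 a := fun j =>
    (hcont j).preimage_mem_nhds (hD.isOpen_compl.mem_nhds (hcyc j))
  have hV0 : (⋂ j ∈ Finset.range n, {w | g^[j] w ∉ Dm}) ∈ 𝓝 a :=
    (Filter.biInter_finset_mem _).2 fun j _ => hpre j
  obtain ⟨k0, hk0⟩ := eventually_atTop.1 (hUV _ hV0)
  have hU' : U ∩ (⋂ j ∈ Finset.range (n * k0), {w | g^[j] w ∉ Dm}) ∈ 𝓝 a :=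
    inter_mem hUn ((Filter.biInter_finset_mem _).2 fun j _ => hpre j)
  have hstay : ∀ w ∈ U ∩ (⋂ j ∈ Finset.range (n * k0), {w | g^[j] w ∉ Dm}), ∀ l : ℕ,
      g^[l] w ∉ Dm := by
    rintro w ⟨hw1, hw2⟩ l
    rw [mem_iInter₂] at hw2
    rcases lt_or_ge l (n * k0) with hl | hl
    · exact hw2 l (Finset.mem_range.2 hl)
    · have h3 : k0 ≤ l / n := by
        rw [Nat.le_div_iff_mul_le hn, Nat.mul_comm]
        exact hl
      have h4 := hk0 (l / n) h3 w hw1
      rw [mem_iInter₂] at h4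
      have h5 := h4 (l % n) (Finset.mem_range.2 (Nat.mod_lt _ hn))
      have h6 : g^[l % n] (g^[n * (l / n)] w) ∉ Dm := h5
      rwa [← Function.iterate_add_apply, Nat.mod_add_div] at h6
  refine ⟨n, a, ⟨hn, ?_, _, hU', fun V hV => ?_⟩, ?_⟩
  · rw [iter_eq_of hGg n fun l _ => hcyc l, hfix]
  · filter_upwards [hUV V hV] with k hk w hw
    rw [iter_eq_of hGg _ fun l _ => hstay w hw l]
    exact hk w hw.1
  · refine ht.congr fun k => ?_
    rw [hGgc]

/-- transfer by a conjugacy -/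
theorem attd_conj (φ : OnePoint ℂ ≃ₜ OnePoint ℂ) {F' : OnePoint ℂ → OnePoint ℂ}
    (hconj : ∀ z, F' (φ z) = φ (G z)) {c : OnePoint ℂ} (h : Attd G c) : Attd F' (φ c) := by
  have hit : ∀ (k : ℕ) (z : OnePoint ℂ), F'^[k] (φ z) = φ (G^[k] z) := by
    intro k
    induction k with
    | zero => intro z; rfl
    | succ k ih =>
      intro z
      rw [Function.iterate_succ_apply', Function.iterate_succ_apply', ih, hconj]
  obtain ⟨n, a, ⟨hn, hfix, U, hU, hUV⟩, ht⟩ := h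
  refine ⟨n, φ a, ⟨hn, by rw [hit, hfix], φ '' U, φ.isOpenMap.image_mem_nhds hU, fun V hV => ?_⟩, ?_⟩
  · have h1 : φ ⁻¹' V ∈ 𝓝 a := φ.continuous.continuousAt.preimage_mem_nhds hV
    filter_upwards [hUV _ h1] with k hk
    rintro _ ⟨u, hu, rfl⟩
    rw [hit]
    exact hk u hu
  · have h1 := (φ.continuous.tendsto a).comp ht
    refine h1.congr fun k => ?_
    rw [hit]
    rfl

theorem crit_conj (φ : OnePoint ℂ ≃ₜ OnePoint ℂ) {F' : OnePoint ℂ → OnePoint ℂ}
    (hconj : ∀ z, F' (φ z) = φ (G z)) {c : OnePoint ℂ} (hc : ¬ ∃ U ∈ 𝓝 (φ c), InjOn F' U) :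
    ¬ ∃ U ∈ 𝓝 c, InjOn G U := by
  rintro ⟨U, hU, hinj⟩
  refine hc ⟨φ '' U, φ.isOpenMap.image_mem_nhds hU, ?_⟩
  rintro _ ⟨a, ha, rfl⟩ _ ⟨b, hb, rfl⟩ hab
  rw [hconj, hconj] at hab
  rw [hinj ha hb (φ.injective hab)]

theorem shyp_conj (φ : OnePoint ℂ ≃ₜ OnePoint ℂ) {F' : OnePoint ℂ → OnePoint ℂ}
    (hconj : ∀ z, F' (φ z) = φ (G z)) (h : SHyp G) : SHyp F' := by
  intro c' hc'
  obtain ⟨c, rfl⟩ := φ.surjective c'
  exact attd_conj φ hconj (h c (crit_conj φ hconj hc'))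

/-- transfer of the relative condition -/
theorem out_conj (φ : OnePoint ℂ ≃ₜ OnePoint ℂ) {V : Set (OnePoint ℂ)}
    (h : OutHyp (φ ⁻¹' V) g) : OutHyp V (fun z => φ (g (φ.symm z))) := by
  have hconj : ∀ z, (fun z => φ (g (φ.symm z))) (φ z) = φ (g z) := by
    intro z
    simp only [φ.symm_apply_apply]
  have hit : ∀ (k : ℕ) (z : OnePoint ℂ), (fun z => φ (g (φ.symm z)))^[k] (φ z) = φ (g^[k] z) := by
    intro k
    induction k with
    | zero => intro z; rfl
    | succ k ih =>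
      intro z
      rw [Function.iterate_succ_apply', Function.iterate_succ_apply', ih, φ.symm_apply_apply]
  intro c' hc1 hc2
  obtain ⟨c, rfl⟩ := φ.surjective c'
  refine attd_conj φ hconj (h c (fun k hk => hc1 k ?_) (crit_conj φ hconj hc2))
  rw [hit]
  exact hk

theorem shyp_top {f : OnePoint ℂ → OnePoint ℂ} (h : SHyp f) : HypTop f :=
  fun c hc => attd_watt (h c hc)

end Pool.Agent.Helper23V
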