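import Pool.Agent.Helper23V.MainG
import Pool.Agent.Helper23T.EndM
import Pool.Agent.R239.Fat.T17

/-!
# Approximation by maps of higher degree
-/

set_option autoImplicit false
set_option linter.unusedSectionVars false

open Set Filter Topology Metric
open scoped OnePoint

noncomputable section

namespace Pool.Agent.Helper23V

open Pool.Agent.H790R3.RB (CV hF ND sp pr hc pol HypTop Sink Attd PQ SP)
open Pool.Agent.Helper23T
open Pool.Agent.R239.Fat (mkv pol_mkv)

variable {d : ℕ}

/-- the maps of degree `m + d` which are close to the pair `(H P, H Q)` are close to `P / Q` off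
the zeros of `H` -/
theorem ev_mul {x : CV d} (hx : ND x) {m : ℕ} {H : Polynomial ℂ} (hm : H.natDegree ≤ m)
    {C : Set (OnePoint ℂ)} (hC : IsCompact C) (hz : ∀ z : ℂ, H.eval z = 0 → (z : OnePoint ℂ) ∉ C)
    (hi : H.coeff m ≠ 0 ∨ ∞ ∉ C) {W : Set (OnePoint ℂ × OnePoint ℂ)} (hW : IsOpen W)
    (hWd : ∀ z, (z, z) ∈ W) :
    ∀ᶠ y in 𝓝 (mkv (m + d) (H * pol x 0) (H * pol x 1)), ∀ z ∈ C, (sp x z, sp y z) ∈ W := by
  classical
  have hdeg : ∀ i, (H * pol x i).natDegree ≤ m + d := fun i =>
    Polynomial.natDegree_mul_le.trans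
      (add_le_add hm (Pool.Agent.H790R3.RB.PQ.pol_natDegree x i))
  obtain ⟨e0, e1⟩ := pol_mkv (hdeg 0) (hdeg 1)
  refine ev_pair hx _ hC (ηH := fun p => if p.2 = 0 then H.coeff m else H.eval p.1) ?_ ?_ hW hWd
  · intro z
    induction z using OnePoint.rec with
    | coe z =>
      show hF _ (z, 1) = (if (1 : ℂ) = 0 then H.coeff m else H.eval z) • hF x (z, 1)
      rw [if_neg one_ne_zero, Pool.Agent.H790R3.RB.PQ.hF_one, Pool.Agent.H790R3.RB.PQ.hF_one,
        e0, e1, Polynomial.eval_mul, Polynomial.eval_mul]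
      rfl
    | infty =>
      show hF _ (1, 0) = (if (0 : ℂ) = 0 then H.coeff m else H.eval 1) • hF x (1, 0)
      rw [if_pos rfl, Pool.Agent.H790R3.RB.PQ.hF_inf, Pool.Agent.H790R3.RB.PQ.hF_inf, e0, e1,
        Polynomial.coeff_mul_add_eq_of_natDegree_le hm (Pool.Agent.H790R3.RB.PQ.pol_natDegree x 0),
        Polynomial.coeff_mul_add_eq_of_natDegree_le hm (Pool.Agent.H790R3.RB.PQ.pol_natDegree x 1)]
      rfl
  · intro z hzC
    induction z using OnePoint.rec with
    | coe z =>
      show (if (1 : ℂ) = 0 then H.coeff m else H.eval z) ≠ 0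
      rw [if_neg one_ne_zero]
      exact fun h => hz z h hzC
    | infty =>
      show (if (0 : ℂ) = 0 then H.coeff m else H.eval 1) ≠ 0
      rw [if_pos rfl]
      rcases hi with h | h
      · exact h
      · exact absurd hzC h

end Pool.Agent.Helper23V
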