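import Pool.Agent.Helper23T.ChartM

/-!
# Holomorphic maps of the sphere in homogeneous coordinates, and degenerate coefficient vectors
-/

set_option autoImplicit false
set_option linter.unusedSectionVars false

open Set Filter Topology Metric
open scoped OnePoint

noncomputable section

namespace Pool.Agent.Helper23V

open Pool.Agent.H790R3.RB (CV hF ND sp pr hc pol HypTop Sink Attd PQ SP cr hF_smul cr_smul_left
  cr_smul_right cr_self)
open Pool.Agent.Helper23T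
open Pool.Agent.W440.RE.GENM

variable {d : ℕ}

theorem pr_smul {a : ℂ} (ha : a ≠ 0) (p : ℂ × ℂ) : pr (a • p) = pr p := by
  by_cases h : p.2 = 0
  · rw [Pool.Agent.H790R3.RB.SP.pr_zero h, Pool.Agent.H790R3.RB.SP.pr_zero]
    show a * p.2 = 0
    rw [h, mul_zero]
  · rw [Pool.Agent.H790R3.RB.SP.pr_ne h, Pool.Agent.H790R3.RB.SP.pr_ne (by
      show a * p.2 ≠ 0
      exact mul_ne_zero ha h)]
    congr 1
    show a * p.1 / (a * p.2) = _
    rw [mul_div_mul_left _ _ ha]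

/-- conjugates of holomorphic maps by the change of coordinates -/
theorem hol_conj' {w : ℂ} {h : OnePoint ℂ ≃ₜ OnePoint ℂ} {g : OnePoint ℂ → OnePoint ℂ}
    (hh : ∀ p : ℂ × ℂ, p ≠ 0 → h (pr p) = pr (mm w p)) {z : OnePoint ℂ}
    (hz : HolAt g (h.symm z)) : HolAt (fun z => h (g (h.symm z))) z := by
  obtain ⟨p, hp, hpz, Ψ, hΨ, hΨ0, hev⟩ := hz
  have hmp : mm w p ≠ 0 := fun h0 => hp (mm_zero h0)
  have hsymm : ∀ q : ℂ × ℂ, q ≠ 0 → h.symm (pr q) = pr ((-1 : ℂ) • ad w q) := by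
    intro q hq
    have h1 : ad w q ≠ 0 := fun h0 => hq (ad_zero h0)
    rw [Homeomorph.symm_apply_eq, pr_smul (by norm_num), hh _ h1, mm_ad, pr_smul (by norm_num)]
  have hback : (-1 : ℂ) • ad w (mm w p) = p := by
    rw [ad_mm, smul_smul]
    norm_num
  have hadA : AnalyticAt ℂ (fun q => (-1 : ℂ) • ad w q) (mm w p) := by
    have e : (fun q => (-1 : ℂ) • ad w q) = fun q => (-1 : ℂ) • adL w q :=
      funext fun q => by rw [adL_apply]
    rw [e]
    exact analyticAt_const.fun_smul ((adL w).analyticAt _)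
  refine ⟨mm w p, hmp, ?_, fun q => mm w (Ψ ((-1 : ℂ) • ad w q)), ?_, ?_, ?_⟩
  · rw [← hh p hp, hpz, h.apply_symm_apply]
  · have h2 : AnalyticAt ℂ (fun q => Ψ ((-1 : ℂ) • ad w q)) (mm w p) := by
      refine AnalyticAt.fun_comp (g := Ψ) (f := fun q => (-1 : ℂ) • ad w q) ?_ hadA
      rw [hback]
      exact hΨ
    have h3 : AnalyticAt ℂ (fun q => mm w q) (Ψ ((-1 : ℂ) • ad w (mm w p))) := by
      have e : (fun q => mm w q) = mmL w := funext fun q => (mmL_apply w q).symm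
      rw [e]
      exact (mmL w).analyticAt _
    exact AnalyticAt.fun_comp (g := fun q => mm w q) (f := fun q => Ψ ((-1 : ℂ) • ad w q)) h3 h2
  · show mm w (Ψ ((-1 : ℂ) • ad w (mm w p))) ≠ 0
    rw [hback]
    exact fun h0 => hΨ0 (mm_zero h0)
  · have h1 : Tendsto (fun q => (-1 : ℂ) • ad w q) (𝓝 (mm w p)) (𝓝 p) := by
      have := hadA.continuousAt.tendsto
      rwa [hback] at this
    have h2 : ∀ᶠ q in 𝓝 p, Ψ q ≠ 0 := hΨ.continuousAt.eventually_ne hΨ0
    filter_upwards [h1.eventually hev, h1.eventually h2, isOpen_ne.mem_nhds hmp] with q hq1 hq2 hq3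
    show h (g (h.symm (pr q))) = _
    rw [hsymm q hq3, hq1, hh _ hq2]

/-- the finite part of a holomorphic map -/
theorem hol_fin {g : OnePoint ℂ → OnePoint ℂ} {γ : ℂ → ℂ} {z : ℂ} (h : HolAt g z)
    (hγ : ∀ᶠ v : ℂ in 𝓝 z, g v = (γ v : OnePoint ℂ)) : DifferentiableAt ℂ γ z := by
  obtain ⟨p, hp, hpz, Ψ, hΨ, hΨ0, hev⟩ := h
  have h2 : p.2 ≠ 0 := by
    intro h0
    rw [Pool.Agent.H790R3.RB.SP.pr_zero h0] at hpz
    exact OnePoint.infty_ne_coe _ hpz
  have h1 : p = p.2 • ((z, 1) : ℂ × ℂ) := by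
    rw [Pool.Agent.H790R3.RB.SP.pr_ne h2] at hpz
    have h3 := OnePoint.coe_injective hpz
    ext
    · show p.1 = p.2 * z
      rw [← h3]
      field_simp
    · show p.2 = p.2 * 1
      rw [mul_one]
  have hc : AnalyticAt ℂ (fun v : ℂ => p.2 • ((v, 1) : ℂ × ℂ)) z :=
    analyticAt_const.fun_smul (analyticAt_id.prod analyticAt_const)
  have hcz : p.2 • ((z, 1) : ℂ × ℂ) = p := h1.symm
  have hq : AnalyticAt ℂ (fun v : ℂ => Ψ (p.2 • ((v, 1) : ℂ × ℂ))) z :=
    AnalyticAt.fun_comp (g := Ψ) (f := fun v : ℂ => p.2 • ((v, 1) : ℂ × ℂ))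
      (by rw [hcz]; exact hΨ) hc
  have hq1 : AnalyticAt ℂ (fun v : ℂ => (Ψ (p.2 • ((v, 1) : ℂ × ℂ))).1) z :=
    AnalyticAt.comp (g := Prod.fst) (f := fun v : ℂ => Ψ (p.2 • ((v, 1) : ℂ × ℂ))) analyticAt_fst hq
  have hq2 : AnalyticAt ℂ (fun v : ℂ => (Ψ (p.2 • ((v, 1) : ℂ × ℂ))).2) z :=
    AnalyticAt.comp (g := Prod.snd) (f := fun v : ℂ => Ψ (p.2 • ((v, 1) : ℂ × ℂ))) analyticAt_snd hq
  have hpr : ∀ᶠ v : ℂ in 𝓝 z, g (v : OnePoint ℂ) = pr (Ψ (p.2 • ((v, 1) : ℂ × ℂ))) := by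
    have h3 : Tendsto (fun v : ℂ => p.2 • ((v, 1) : ℂ × ℂ)) (𝓝 z) (𝓝 p) := by
      have := hc.continuousAt.tendsto
      rwa [hcz] at this
    filter_upwards [h3.eventually hev] with v hv
    rw [← hv, pr_smul h2, Pool.Agent.H790R3.RB.SP.pr_ne (by simp)]
    simp
  have hne : (Ψ (p.2 • ((z, 1) : ℂ × ℂ))).2 ≠ 0 := by
    intro h0
    have h3 := hpr.self_of_nhds
    rw [hγ.self_of_nhds, Pool.Agent.H790R3.RB.SP.pr_zero h0] at h3
    exact OnePoint.coe_ne_infty _ h3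
  have hfin : γ =ᶠ[𝓝 z] fun v : ℂ => (Ψ (p.2 • ((v, 1) : ℂ × ℂ))).1 / (Ψ (p.2 • ((v, 1) : ℂ × ℂ))).2 := by
    filter_upwards [hpr, hγ, hq2.continuousAt.eventually_ne hne] with v h3 h4 h5
    rw [h4, Pool.Agent.H790R3.RB.SP.pr_ne h5] at h3
    exact OnePoint.coe_injective h3
  exact (hfin.differentiableAt_iff).2 (hq1.div hq2 hne).differentiableAt

/-- from local coordinates to homogeneous coordinates -/
theorem hol_of_chart {g : OnePoint ℂ → OnePoint ℂ} {z : OnePoint ℂ} {k : ℂ → ℂ}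
    (hk : AnalyticAt ℂ k 0) (h : ∀ᶠ w in 𝓝 (0 : ℂ), g (cht z w) = cht (g z) (k w)) :
    HolAt g z := by
  induction z using OnePoint.rec with
  | coe a =>
    have hl : AnalyticAt ℂ (fun q : ℂ × ℂ => q.1 / q.2 - a) (a, 1) :=
      (analyticAt_fst.div analyticAt_snd (by simp)).sub analyticAt_const
    have hl0 : ((a : ℂ), (1 : ℂ)).1 / ((a : ℂ), (1 : ℂ)).2 - a = 0 := by simp
    refine ⟨(a, 1), fun h => one_ne_zero (congrArg Prod.snd h), ?_,
      fun q => chp (g a) (k (q.1 / q.2 - a)), ?_, chp_ne _ _, ?_⟩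
    · rw [Pool.Agent.H790R3.RB.SP.pr_ne (by simp)]
      simp
    · have h1 : AnalyticAt ℂ (fun q : ℂ × ℂ => k (q.1 / q.2 - a)) (a, 1) :=
        AnalyticAt.fun_comp (g := k) (f := fun q : ℂ × ℂ => q.1 / q.2 - a) (by rw [hl0]; exact hk) hl
      exact AnalyticAt.fun_comp (g := chp (g a)) (f := fun q : ℂ × ℂ => k (q.1 / q.2 - a))
        (chp_analytic _ _) h1
    · have h1 : Tendsto (fun q : ℂ × ℂ => q.1 / q.2 - a) (𝓝 (a, 1)) (𝓝 0) := by
        have := hl.continuousAt.tendsto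
        rwa [hl0] at this
      have h2 : ∀ᶠ q : ℂ × ℂ in 𝓝 (a, 1), q.2 ≠ 0 :=
        continuous_snd.continuousAt.eventually_ne (by simp)
      filter_upwards [h1.eventually h, h2] with q hq1 hq2
      rw [pr_chp, ← hq1, Pool.Agent.H790R3.RB.SP.pr_ne hq2]
      congr 1
      show ((q.1 / q.2 : ℂ) : OnePoint ℂ) = OnePoint.some (a + (q.1 / q.2 - a))
      rw [add_sub_cancel]
  | infty =>
    have hl : AnalyticAt ℂ (fun q : ℂ × ℂ => q.2 / q.1) (1, 0) :=
      analyticAt_snd.div analyticAt_fst (by simp)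
    have hl0 : ((1 : ℂ), (0 : ℂ)).2 / ((1 : ℂ), (0 : ℂ)).1 = 0 := by simp
    refine ⟨(1, 0), fun h => one_ne_zero (congrArg Prod.fst h), ?_,
      fun q => chp (g ∞) (k (q.2 / q.1)), ?_, chp_ne _ _, ?_⟩
    · exact Pool.Agent.H790R3.RB.SP.pr_zero rfl
    · have h1 : AnalyticAt ℂ (fun q : ℂ × ℂ => k (q.2 / q.1)) (1, 0) :=
        AnalyticAt.fun_comp (g := k) (f := fun q : ℂ × ℂ => q.2 / q.1) (by rw [hl0]; exact hk) hl
      exact AnalyticAt.fun_comp (g := chp (g ∞)) (f := fun q : ℂ × ℂ => k (q.2 / q.1))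
        (chp_analytic _ _) h1
    · have h1 : Tendsto (fun q : ℂ × ℂ => q.2 / q.1) (𝓝 (1, 0)) (𝓝 0) := by
        have := hl.continuousAt.tendsto
        rwa [hl0] at this
      have h2 : ∀ᶠ q : ℂ × ℂ in 𝓝 (1, 0), q.1 ≠ 0 :=
        continuous_fst.continuousAt.eventually_ne (by simp)
      filter_upwards [h1.eventually h, h2] with q hq1 hq2
      rw [pr_chp, ← hq1]
      congr 1
      rw [← pr_chp]
      have e : q = q.1 • chp ∞ (q.2 / q.1) := by
        show q = q.1 • ((1 : ℂ), q.2 / q.1)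
        ext
        · simp
        · show q.2 = q.1 * (q.2 / q.1)
          field_simp
      conv_lhs => rw [e, pr_smul hq2]

/-- rational maps are holomorphic -/
theorem hol_sp {y : CV d} (hy : ND y) (z : OnePoint ℂ) : HolAt (sp y) z := by
  obtain ⟨h1, h2⟩ := Pool.Agent.H790R3.RB.SP.pr_hc z
  refine ⟨hc z, h2, h1, hF y, ?_, hF_ne hy h2, ?_⟩
  · have h3 : ContDiff ℂ (⊤ : WithTop ℕ∞) (fun q : ℂ × ℂ => hF y q) :=
      (Pool.Agent.H790R3.RB.hF_contDiff d ⊤).comp (contDiff_const.prodMk contDiff_id)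
    exact (h3.contDiffAt (x := hc z)).analyticAt
  · filter_upwards [isOpen_ne.mem_nhds h2] with q hq
    exact Pool.Agent.H790R3.RB.SP.sp_pr hy hq

/-- joint continuity at degenerate coefficient vectors -/
theorem sp_joint' (x : CV d) (z : OnePoint ℂ) (hx : hF x (hc z) ≠ 0) :
    Tendsto (fun p : CV d × OnePoint ℂ => sp p.1 p.2) (𝓝 (x, z)) (𝓝 (sp x z)) := by
  rw [nhds_prod_eq]
  induction z using OnePoint.rec with
  | coe z =>
    have hx' : hF x (z, 1) ≠ 0 := hx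
    rw [OnePoint.nhds_coe_eq]
    have h1 : 𝓝 x ×ˢ Filter.map ((↑) : ℂ → OnePoint ℂ) (𝓝 z) =
        Filter.map (fun p : CV d × ℂ => (p.1, (p.2 : OnePoint ℂ))) (𝓝 x ×ˢ 𝓝 z) := by
      have := Filter.prod_map_map_eq (f₁ := 𝓝 x) (f₂ := 𝓝 z) (m₁ := id)
        (m₂ := ((↑) : ℂ → OnePoint ℂ))
      rw [Filter.map_id] at this
      exact this
    rw [h1, tendsto_map'_iff, ← nhds_prod_eq]
    have h2 : ContinuousAt (fun p : CV d × ℂ => pr (hF p.1 (p.2, 1))) (x, z) := by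
      refine ContinuousAt.comp (f := fun p : CV d × ℂ => hF p.1 (p.2, 1)) (g := pr) ?_ ?_
      · exact Pool.Agent.H790R3.RB.SP.continuousAt_pr hx'
      · exact (hF_cont2.comp (continuous_fst.prodMk (continuous_snd.prodMk continuous_const))).continuousAt
    exact h2
  | infty =>
    have hx' : hF x (1, 0) ≠ 0 := hx
    rw [OnePoint.nhds_infty_eq, Filter.prod_sup]
    refine Tendsto.sup ?_ ?_
    · have h1 : 𝓝 x ×ˢ Filter.map ((↑) : ℂ → OnePoint ℂ) (coclosedCompact ℂ) =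
          Filter.map (fun p : CV d × ℂ => (p.1, (p.2 : OnePoint ℂ))) (𝓝 x ×ˢ coclosedCompact ℂ) := by
        have := Filter.prod_map_map_eq (f₁ := 𝓝 x) (f₂ := coclosedCompact ℂ) (m₁ := id)
          (m₂ := ((↑) : ℂ → OnePoint ℂ))
        rw [Filter.map_id] at this
        exact this
      rw [h1, tendsto_map'_iff, coclosedCompact_eq_cocompact, ← Metric.cobounded_eq_cocompact]
      have h2 : ContinuousAt (fun p : CV d × ℂ => pr (hF p.1 (1, p.2))) (x, 0) := by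
        refine ContinuousAt.comp (f := fun p : CV d × ℂ => hF p.1 (1, p.2)) (g := pr) ?_ ?_
        · exact Pool.Agent.H790R3.RB.SP.continuousAt_pr hx'
        · exact (hF_cont2.comp (continuous_fst.prodMk (continuous_const.prodMk continuous_snd))).continuousAt
      have h3 : Tendsto (fun p : CV d × ℂ => (p.1, p.2⁻¹)) (𝓝 x ×ˢ Bornology.cobounded ℂ) (𝓝 (x, 0)) := by
        rw [nhds_prod_eq]
        exact (tendsto_id.prodMap tendsto_inv₀_cobounded)
      have h4 := h2.tendsto.comp h3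
      refine Tendsto.congr' ?_ h4
      have h5 : ∀ᶠ p : CV d × ℂ in 𝓝 x ×ˢ Bornology.cobounded ℂ, True ∧ p.2 ≠ 0 :=
        (Filter.Eventually.of_forall (fun _ => trivial)).prod_mk
          (Bornology.eventually_ne_cobounded (0 : ℂ))
      filter_upwards [h5] with p hp
      show pr (hF p.1 (1, p.2⁻¹)) = pr (hF p.1 (p.2, 1))
      have e : ((p.2, 1) : ℂ × ℂ) = p.2 • ((1 : ℂ), p.2⁻¹) := by
        ext
        · simp
        · show (1 : ℂ) = p.2 * p.2⁻¹
          rw [mul_inv_cancel₀ hp.2]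
      rw [e, hF_smul, pr_smul (pow_ne_zero _ hp.2)]
    · have h2 : ContinuousAt (fun y : CV d => pr (hF y (1, 0))) x := by
        refine ContinuousAt.comp (f := fun y : CV d => hF y (1, 0)) (g := pr) ?_ ?_
        · exact Pool.Agent.H790R3.RB.SP.continuousAt_pr hx'
        · exact (hF_cont2.comp (continuous_id.prodMk continuous_const)).continuousAt
      have h3 : Tendsto (fun y : CV d => sp y (∞ : OnePoint ℂ)) (𝓝 x) (𝓝 (sp x ∞)) := h2.tendsto
      have h4 : 𝓝 x ×ˢ (pure (∞ : OnePoint ℂ)) = Filter.map (fun y : CV d => (y, (∞ : OnePoint ℂ))) (𝓝 x) := by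
        exact Filter.prod_pure
      rw [h4, tendsto_map'_iff]
      exact h3

/-- closeness off a compact set of points of indeterminacy -/
theorem ev_pair {D : ℕ} {x : CV d} (hx : ND x) (X : CV D) {C : Set (OnePoint ℂ)} (hC : IsCompact C)
    {ηH : ℂ × ℂ → ℂ} (hX : ∀ z, hF X (hc z) = ηH (hc z) • hF x (hc z))
    (hne : ∀ z ∈ C, ηH (hc z) ≠ 0) {W : Set (OnePoint ℂ × OnePoint ℂ)} (hW : IsOpen W)
    (hWd : ∀ z, (z, z) ∈ W) : ∀ᶠ y in 𝓝 X, ∀ z ∈ C, (sp x z, sp y z) ∈ W := by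
  refine hC.eventually_forall_of_forall_eventually (P := fun y z => (sp x z, sp y z) ∈ W)
    fun z hz => ?_
  have h0 : hF X (hc z) ≠ 0 := by
    rw [hX]
    exact smul_ne_zero (hne z hz) (hF_ne hx (Pool.Agent.H790R3.RB.SP.pr_hc z).2)
  have h1 := sp_joint' X z h0
  have h2 : sp X z = sp x z := by
    show pr (hF X (hc z)) = pr (hF x (hc z))
    rw [hX, pr_smul (hne z hz)]
  rw [h2] at h1
  have h3 : Tendsto (fun p : CV D × OnePoint ℂ => sp x p.2) (𝓝 (X, z)) (𝓝 (sp x z)) :=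
    ((Pool.Agent.H790R3.RB.SP.sp_cont hx).comp continuous_snd).tendsto _
  have h4 := h3.prodMk_nhds h1
  exact h4.eventually (hW.mem_nhds (hWd _))

end Pool.Agent.Helper23V
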