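import Pool.Agent.Helper23T.StepM
import Pool.Agent.Helper23V.CutG
import Pool.Agent.Helper23V.DynG

/-!
# One step of the construction
-/

set_option autoImplicit false
set_option linter.unusedSectionVars false

open Set Filter Topology Metric
open scoped OnePoint

noncomputable section

namespace Pool.Agent.Helper23V

open Pool.Agent.H790R3.RB (CV hF ND sp pr hc pol HypTop Sink Attd PQ SP)
open Pool.Agent.Split938 (dbar)
open Pool.Agent.Helper23S Pool.Agent.Helper23T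

variable {d : ℕ}

section

variable {x : CV d} {U0 : Set (OnePoint ℂ)} {Z : Finset ℂ} {χ : ℂ → ℝ} {a0 b0 ρ : ℝ} {lc : ℂ}

/-- **One step.** -/
theorem stepG (D : Data x U0 Z χ a0 b0 ρ) (hg : Gen x Z lc) (hpf : ∀ p ∈ Z, ‖p‖ < ρ)
    {ε M : ℝ} (hε : 0 < ε) (hM : 0 ≤ M) : ∃ η0 > 0, ∀ g γ, Near x χ g γ η0 →
    ∃ (Φ : ℂ ≃ₜ ℂ) (x' : CV d) (P' : Polynomial ℂ), ND x' ∧ (OutHyp U0 g → SHyp (sp x')) ∧
      (∀ z, ‖z‖ ≤ M → ‖Φ z - z‖ ≤ ε) ∧ (∀ z, 2 * ρ ≤ ‖z‖ → ‖Φ z - z‖ ≤ 1 / 2 * ‖z‖) ∧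
      ((∀ z ∈ U0, sp x' (Φ.onePointCongr z) = Φ.onePointCongr (sp x z)) ∧
        (∀ z ∉ Dm χ a0, sp x' (Φ.onePointCongr z) = Φ.onePointCongr (g z)) ∧
        ∀ z ∈ Dm χ a0, sp x' (Φ.onePointCongr z) ∈ Φ.onePointCongr '' U0) ∧
      DifferentiableOn ℂ Φ {z : ℂ | (z : OnePoint ℂ) ∈ U0} ∧
      P'.natDegree ≤ d ∧ pol x' 0 = Polynomial.C lc * P' ∧
      pol x' 1 = Polynomial.C lc * ∏ p ∈ Z, (Polynomial.X - Polynomial.C (Φ p)) ∧
      ∀ z : ℂ, (z : OnePoint ℂ) ∈ U0 → z ∉ Z →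
        P'.eval (Φ z) = Φ (fp x z) * ∏ p ∈ Z, (Φ z - Φ p) := by
  classical
  have hρ1 := D.ρ1
  have hρ0 : 0 < ρ := by linarith
  obtain ⟨C1, hC1, hcl⟩ := ph_close hρ1 hM
  set κ : ℝ := min (1 / 40) ((ε / (3 * C1)) ^ 2) with hκ
  have hκ0 : 0 < κ := lt_min (by norm_num) (by positivity)
  have hκ1 : κ ≤ 1 / 40 := min_le_left _ _
  have hκε : C1 * (κ * (1 + Real.log (1 / κ))) ≤ ε := by
    have h1 := log_sqrt_bound hκ0
    have h2 : Real.sqrt κ ≤ ε / (3 * C1) := by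
      rw [Real.sqrt_le_left (by positivity)]
      exact min_le_right _ _
    calc C1 * (κ * (1 + Real.log (1 / κ))) ≤ C1 * (3 * Real.sqrt κ) :=
          mul_le_mul_of_nonneg_left h1 hC1.le
      _ ≤ C1 * (3 * (ε / (3 * C1))) := by gcongr
      _ = ε := by field_simp
  obtain ⟨η0, hη0, hcut⟩ := cutG D hκ0 hκ1
  refine ⟨η0, hη0, fun g γ hgγ => ?_⟩
  obtain ⟨hgs, a, b, ha, hab, hb, hqm, hGU, hGH, hGDm⟩ := hcut g γ hgγ
  set u := itq χ a b (fp x) γ with hu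
  set G := Gm x Z u with hG
  obtain ⟨Φ, h1, h2, h3, h4, h5, h6⟩ := limit_homeo (ε := ε) (M := M) hρ1 hκ0.le hκ1
    (pbm_adm hqm) (pbm_ev hqm) (fun L hL1 hL2 μ hμ z hz =>
      (hcl κ L μ hκ0 hκ1 (by linarith) (by linarith) hμ z hz).trans hκε)
  -- elementary properties
  have hb1 := D.b1
  have huU : ∀ z : ℂ, (z : OnePoint ℂ) ∈ U0 → u z = fp x z := by
    intro z hz
    exact itq_out hab (by rw [D.χ1 z hz]; linarith)
  have hqx : ∀ z, z ∉ Z → qd x z ≠ 0 := fun z hz h => hz ((D.Zr z).2 h)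
  -- the conjugate is rational
  have hhol : ∀ z ∉ Z, DifferentiableAt ℂ (fun w => Φ (u (Φ.symm w))) (Φ z) := by
    intro z hz
    refine h5 u {z | z ∉ Z} ?_ (fun z hz => (hqm.sm z hz).differentiableAt (by simp))
      (fun K z hz => pbm_rel hqm K hz) z hz
    exact Z.finite_toSet.isClosed.isOpen_compl
  obtain ⟨B, hB⟩ := fp_bdd D hg hpf
  have hVn : ∀ p ∈ Z, ∀ᶠ z : ℂ in 𝓝 p, u z = fp x z := by
    intro p hp
    filter_upwards [hqm.Vopen.mem_nhds (hqm.ZV p hp)] with z hz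
    exact huU z hz
  obtain ⟨P', hP1, hP2, hP3⟩ := rat (Z := Z) (u := u) hρ1 Φ hhol h3 h4 (B := B)
    (fun z hz => by rw [huU z (D.far z hz)]; exact hB z hz)
    (fun z hz hZ => absurd (hpf z hZ) (not_lt.2 hz))
    (fun p hp => by
      refine (fp_pole D hg hp).1.congr' ?_
      filter_upwards [mem_nhdsWithin_of_mem_nhds (hVn p hp)] with z hz
      rw [show u z = fp x z from hz])
    (fun p hp => by
      obtain ⟨O, hO, hinj⟩ := (fp_pole D hg hp).2
      refine ⟨O ∩ {z | u z = fp x z}, inter_mem hO (hVn p hp), ?_⟩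
      rintro z ⟨⟨hz1, hz2⟩, hz3⟩ w ⟨⟨hw1, hw2⟩, hw3⟩ hzw
      rw [show u z = fp x z from hz2, show u w = fp x w from hw2] at hzw
      exact hinj ⟨hz1, hz3⟩ ⟨hw1, hw3⟩ hzw)
  -- the coefficients
  set Q' : Polynomial ℂ := Polynomial.C lc * ∏ p ∈ Z, (Polynomial.X - Polynomial.C (Φ p)) with hQ'
  set P'' : Polynomial ℂ := Polynomial.C lc * P' with hP''
  have hQe : ∀ w, Q'.eval w = lc * ∏ p ∈ Z, (w - Φ p) := by
    intro w
    rw [hQ', Polynomial.eval_mul, Polynomial.eval_C, Polynomial.eval_prod]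
    simp
  have hQ0 : ∀ z, Q'.eval (Φ z) = 0 ↔ z ∈ Z := by
    intro z
    rw [hQe]
    simp only [mul_eq_zero, hg.lc0, false_or, Finset.prod_eq_zero_iff, sub_eq_zero]
    constructor
    · rintro ⟨p, hp, hpz⟩
      rwa [Φ.injective hpz]
    · intro hz
      exact ⟨z, hz, rfl⟩
  have hQdeg : Q'.natDegree = d := by
    rw [hQ', Polynomial.natDegree_C_mul hg.lc0,
      Polynomial.natDegree_prod_of_monic _ _ fun p _ => Polynomial.monic_X_sub_C (Φ p)]
    simp [hg.card]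
  have hPdeg : P''.natDegree ≤ d := by
    rw [hP'', Polynomial.natDegree_C_mul hg.lc0, ← hg.card]
    exact hP1
  have hcop : IsCoprime P'' Q' := by
    rw [Polynomial.isCoprime_iff_aeval_ne_zero_of_isAlgClosed ℂ ℂ]
    intro w
    rw [Polynomial.coe_aeval_eq_eval]
    obtain ⟨z, rfl⟩ := Φ.surjective w
    by_cases hz : z ∈ Z
    · left
      rw [hP'', Polynomial.eval_mul, Polynomial.eval_C]
      exact mul_ne_zero hg.lc0 (hP3 z hz)
    · right
      rw [Ne, hQ0]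
      exact hz
  have hd1 : 1 ≤ d := by linarith [D.d2]
  obtain ⟨x', hx', hx0, hx1, hxu⟩ := (PQ SP d hd1).2 P'' Q' hcop (by rw [hQdeg]; omega)
  -- the conjugate on the sphere
  set φ : OnePoint ℂ ≃ₜ OnePoint ℂ := Φ.onePointCongr with hφ
  have hφc : ∀ z : ℂ, φ z = (Φ z : ℂ) := fun z => rfl
  have hsp : (fun w => φ (G (φ.symm w))) = sp x' := by
    apply hxu
    · exact φ.continuous.comp (hqm.cont.comp φ.symm.continuous)
    · intro w hw
      obtain ⟨z, rfl⟩ := Φ.surjective w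
      have hz : z ∉ Z := fun hz => hw ((hQ0 z).2 hz)
      show φ (G (φ.symm (Φ z : ℂ))) = _
      rw [← hφc, φ.symm_apply_apply, hqm.npole z hz, hφc]
      congr 1
      rw [hP'', Polynomial.eval_mul, Polynomial.eval_C, hP2 z hz, hQe]
      have h7 : ∏ p ∈ Z, (Φ z - Φ p) ≠ 0 := by
        rw [hQe] at hw
        exact right_ne_zero_of_mul hw
      field_simp [hg.lc0]
  have hconj : ∀ z, sp x' (φ z) = φ (G z) := by
    intro z
    rw [← hsp]
    simp only [Homeomorph.symm_apply_apply]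
  refine ⟨Φ, x', P', hx', fun hyp => shyp_conj φ hconj fun c hc => ?_, h1, ?_, ⟨?_, ?_, ?_⟩, ?_, ?_,
    hx0, hx1, ?_⟩
  · have hcl : ∀ z ∈ closure (Dm χ a0)ᶜ, ∃ v : ℂ, χ v ≤ a0 ∧ z = (v : OnePoint ℂ) := by
      intro z hz
      have hK : IsCompact {v : ℂ | χ v ≤ a0} :=
        D.comp.of_isClosed_subset (isClosed_le D.χs.continuous continuous_const)
          fun v (hv : χ v ≤ a0) => hv.trans D.ab.le
      have h7 : closure (Dm χ a0)ᶜ ⊆ (↑) '' {v : ℂ | χ v ≤ a0} := by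
        refine closure_minimal ?_ (hK.image OnePoint.continuous_coe).isClosed
        intro v hv
        rw [Dm, compl_compl] at hv
        obtain ⟨v, hv, rfl⟩ := hv
        exact ⟨v, (show χ v < a0 from hv).le, rfl⟩
      obtain ⟨v, hv, rfl⟩ := h7 hz
      exact ⟨v, hv, rfl⟩
    refine dynG hqm.cont D.Uo (Dm_closed D.χs.continuous a0) D.UD D.tr D.at' hGU hGH ?_ ?_ hGDm
      hyp hc
    · intro z hz
      obtain ⟨v, hv, rfl⟩ := hcl z hz
      have hvΩ : v ∈ Om χ := lt_of_le_of_lt hv (D.ab.trans D.b1)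
      rw [OnePoint.continuousAt_coe]
      have h8 : ContinuousAt (fun w : ℂ => (γ w : OnePoint ℂ)) v :=
        ContinuousAt.comp (g := fun w : ℂ => (w : OnePoint ℂ))
          OnePoint.continuous_coe.continuousAt
          (hgγ.hol.differentiableAt ((Om_open D).mem_nhds hvΩ)).continuousAt
      refine h8.congr ?_
      filter_upwards [(Om_open D).mem_nhds hvΩ] with w hw
      exact (hgγ.fin w hw).symm
    · intro z hz1 hz2
      obtain ⟨v, hv, rfl⟩ := hcl z hz2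
      exact hgs v (mem_Dm.1 hz1) (hv.trans D.ab.le)
  · intro z hz
    refine (h2 z hz).trans ?_
    have := norm_nonneg z
    nlinarith
  · intro z hz
    rw [hconj, hGU z hz]
  · intro z hz
    rw [hconj, hGH z hz]
  · intro z hz
    rw [hconj]
    exact ⟨_, hGDm z hz, rfl⟩
  · exact h6 _ hqm.Vopen fun K z hz => pbm_V hqm K z hz
  · rw [← hg.card]
    exact hP1
  · intro z hz hZ
    rw [hP2 z hZ, huU z hz]

end

end Pool.Agent.Helper23V
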