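import Pool.Agent.Helper23T.SeqM
import Pool.Agent.Helper23V.StepG

/-!
# The normalised theorem
-/

set_option autoImplicit false
set_option linter.unusedSectionVars false

open Set Filter Topology Metric
open scoped OnePoint

noncomputable section

namespace Pool.Agent.Helper23V

open Pool.Agent.H790R3.RB (CV hF ND sp pr hc pol HypTop Sink Attd PQ SP)
open Pool.Agent.Helper23S Pool.Agent.Helper23T

variable {d : ℕ}

section

variable {x : CV d} {U0 : Set (OnePoint ℂ)} {Z : Finset ℂ} {χ : ℂ → ℝ} {a0 b0 ρ : ℝ} {lc : ℂ}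

/-- **the normalised theorem** -/
theorem normG (D : Data x U0 Z χ a0 b0 ρ) (hg : Gen x Z lc) (hpf : ∀ p ∈ Z, ‖p‖ < ρ)
    {ε : ℝ} (hε : 0 < ε)
    {W : Set (OnePoint ℂ × OnePoint ℂ)} (hW : IsOpen W) (hWd : ∀ z, (z, z) ∈ W) :
    ∃ η0 > 0, ∀ g γ, Near x χ g γ η0 → ∃ (φ : OnePoint ℂ ≃ₜ OnePoint ℂ) (x' : CV d), ND x' ∧
      (OutHyp U0 g → SHyp (sp x')) ∧ ‖x' - x‖ < ε ∧
      (∀ z, (z, φ z) ∈ W) ∧ (∀ z ∈ U0, sp x' (φ z) = φ (sp x z)) ∧
      (∀ z ∉ Dm χ a0, sp x' (φ z) = φ (g z)) ∧ (∀ z ∈ Dm χ a0, sp x' (φ z) ∈ φ '' U0) ∧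
      ∀ z ∈ U0, HolAt φ z := by
  classical
  by_contra hcon
  push Not at hcon
  obtain ⟨εW, hεW, MW, -, hcl⟩ := close_id (ρ := ρ) hW hWd
  have hstep := fun k : ℕ => stepG D hg hpf (ε := 1 / ((k : ℝ) + 1)) (M := k)
    (by positivity) (by positivity)
  choose η1 hη1 hstep' using hstep
  have hcon' := fun k : ℕ => hcon (η1 k) (hη1 k)
  choose g γ hnear hyno using hcon'
  have hys' := fun k => hstep' k (g k) (γ k) (hnear k)
  choose Φ X P' hX hhyp h1 h2 h3 h4 h5 h6 h7 h8 using hys'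
  have hρ1 := D.ρ1
  -- pointwise convergence
  have hp : ∀ z, Tendsto (fun k => Φ k z) atTop (𝓝 z) := by
    intro z
    rw [tendsto_iff_norm_sub_tendsto_zero]
    refine squeeze_zero' (Eventually.of_forall fun k => norm_nonneg _) ?_
      tendsto_one_div_add_atTop_nhds_zero_nat
    filter_upwards [(tendsto_natCast_atTop_atTop (R := ℝ)).eventually_ge_atTop ‖z‖] with k hk
    exact h1 k z hk
  -- the nodes
  set w : Fin (d + 1) → ℂ := fun i => ((ρ + (i : ℕ) : ℝ) : ℂ) with hw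
  have hwn : ∀ i, ρ ≤ ‖w i‖ := by
    intro i
    rw [hw]
    simp only
    rw [Complex.norm_real, Real.norm_eq_abs]
    have : (0 : ℝ) ≤ (i : ℕ) := Nat.cast_nonneg _
    rw [abs_of_nonneg (by linarith)]
    linarith
  have hwinj : Function.Injective w := by
    intro i j hij
    have h9 : (ρ + (i : ℕ) : ℝ) = ρ + (j : ℕ) := Complex.ofReal_injective hij
    have h10 : ((i : ℕ) : ℝ) = (j : ℕ) := by linarith
    exact Fin.ext (by exact_mod_cast h10)
  have hwU : ∀ i, (w i : OnePoint ℂ) ∈ U0 := fun i => D.far _ (hwn i)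
  have hwZ : ∀ i, w i ∉ Z := fun i hi => absurd (hpf _ hi) (not_lt.2 (hwn i))
  -- the limit polynomial
  set B : Polynomial ℂ := Polynomial.C lc⁻¹ * pol x 0 with hB
  have hBd : B.natDegree ≤ d := by
    rw [hB, Polynomial.natDegree_C_mul (inv_ne_zero hg.lc0)]
    exact Pool.Agent.H790R3.RB.PQ.pol_natDegree x 0
  have hct0 : CT atTop P' B := by
    refine ct_of_eval h5 hBd hwinj (v := fun k i => Φ k (w i)) (fun i => hp (w i)) fun i => ?_
    have e1 : B.eval (w i) = fp x (w i) * ∏ p ∈ Z, (w i - p) := by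
      have e2 : qd x (w i) ≠ 0 := fun h => hwZ i ((hg.root _).2 h)
      have e3 : qd x (w i) = lc * ∏ p ∈ Z, (w i - p) := by
        unfold qd
        rw [hg.Q, Polynomial.eval_mul, Polynomial.eval_C, Polynomial.eval_prod]
        simp
      have e4 : ∏ p ∈ Z, (w i - p) ≠ 0 := by
        rw [e3] at e2
        exact right_ne_zero_of_mul e2
      rw [hB, Polynomial.eval_mul, Polynomial.eval_C]
      show lc⁻¹ * (pol x 0).eval (w i) = (pol x 0).eval (w i) / qd x (w i) * _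
      rw [e3]
      have := hg.lc0
      field_simp
    rw [e1]
    have e5 : (fun k => (P' k).eval (Φ k (w i))) = fun k =>
        Φ k (fp x (w i)) * ∏ p ∈ Z, (Φ k (w i) - Φ k p) := by
      funext k
      exact h8 k (w i) (hwU i) (hwZ i)
    rw [e5]
    exact (hp _).mul (tendsto_finsetProd _ fun p _ => (hp _).sub (hp p))
  have hctP : CT atTop (fun k => pol (X k) 0) (pol x 0) := by
    have e1 : pol x 0 = Polynomial.C lc * B := by
      rw [hB, ← mul_assoc, ← Polynomial.C_mul, mul_inv_cancel₀ hg.lc0, Polynomial.C_1, one_mul]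
    rw [e1]
    have e2 := (CT.const (l := atTop) (Polynomial.C lc)).mul hct0
    have e3 : (fun k => pol (X k) 0) = fun k => Polynomial.C lc * P' k := funext h6
    rw [e3]
    exact e2
  have hctQ : CT atTop (fun k => pol (X k) 1) (pol x 1) := by
    rw [hg.Q]
    have e3 : (fun k => pol (X k) 1) = fun k =>
        Polynomial.C lc * ∏ p ∈ Z, (Polynomial.X - Polynomial.C (Φ k p)) := funext h7
    rw [e3]
    refine (CT.const (Polynomial.C lc)).mul (CT.prod fun p _ => ?_)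
    exact (CT.const Polynomial.X).sub (CT.C (hp p))
  have hXt : Tendsto X atTop (𝓝 x) := by
    rw [tendsto_pi_nhds]
    rintro ⟨i, j⟩
    have e1 : ∀ y : CV d, y (i, j) = (pol y i).coeff (j : ℕ) := fun y =>
      (Pool.Agent.H790R3.RB.PQ.pol_coeff y i j).symm
    simp only [e1]
    fin_cases i
    · exact hctP (j : ℕ)
    · exact hctQ (j : ℕ)
  have e1 : ∀ᶠ k in atTop, ‖X k - x‖ < ε := by
    have := (tendsto_iff_norm_sub_tendsto_zero.1 hXt).eventually (gt_mem_nhds hε)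
    exact this
  have e2 : ∀ᶠ k : ℕ in atTop, 1 / ((k : ℝ) + 1) ≤ εW :=
    (tendsto_one_div_add_atTop_nhds_zero_nat (𝕜 := ℝ)).eventually (ge_mem_nhds hεW)
  have e3 : ∀ᶠ k : ℕ in atTop, MW ≤ (k : ℝ) :=
    (tendsto_natCast_atTop_atTop (R := ℝ)).eventually_ge_atTop MW
  obtain ⟨k, hk1, hk2, hk3⟩ := (e1.and (e2.and e3)).exists
  obtain ⟨z, hz, hz2⟩ := hyno k (Φ k).onePointCongr (X k) (hX k) (hhyp k) hk1
    (hcl (Φ k) (fun z hz => (h1 k z (hz.trans hk3)).trans hk2) (h2 k)) (h3 k).1 (h3 k).2.1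
    (h3 k).2.2
  exact hz2 (hol_ext D.Uo (h4 k) D.far hz)

end

end Pool.Agent.Helper23V
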