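import Pool.Agent.Helper23T.MoebM
import Pool.Agent.Helper23V.HolG
import Pool.Agent.Helper23V.NormG

/-!
# The surgery theorem with arbitrary holomorphic approximants
-/

set_option autoImplicit false
set_option linter.unusedSectionVars false

open Set Filter Topology Metric
open scoped OnePoint

noncomputable section

namespace Pool.Agent.Helper23V

open Pool.Agent.H790R3.RB (CV hF ND sp pr hc pol HypTop Sink Attd PQ SP cr wr hF_smul cr_smul_left
  cr_smul_right cr_self cr_comm)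
open Pool.Agent.Helper23S Pool.Agent.Helper23T
open Pool.Agent.W440.RE.GENM

variable {d : ℕ}

/-- **the theorem for rational maps** -/
theorem mainG (hd : 2 ≤ d) {x : CV d} (hx : ND x)
    {K : Set (OnePoint ℂ)} (hK : IsCompact K) (hKne : K.Nonempty)
    (hKa : ∀ z ∈ K, Attd (sp x) z) :
    ∃ V D : Set (OnePoint ℂ), IsOpen V ∧ IsClosed D ∧ K ⊆ V ∧ V ⊆ D ∧
      (∀ z ∈ D, sp x z ∈ V) ∧ (∀ z ∈ D, Attd (sp x) z) ∧
      ∀ ε : ℝ, 0 < ε → ∀ W : Set (OnePoint ℂ × OnePoint ℂ), IsOpen W → (∀ z, (z, z) ∈ W) →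
        ∃ W₁ : Set (OnePoint ℂ × OnePoint ℂ), IsOpen W₁ ∧ (∀ z, (z, z) ∈ W₁) ∧
        ∀ g : OnePoint ℂ → OnePoint ℂ, (∀ z ∉ V, HolAt g z) → (∀ z ∉ V, (sp x z, g z) ∈ W₁) →
          ∃ (φ : OnePoint ℂ ≃ₜ OnePoint ℂ) (x' : CV d), ND x' ∧
          (OutHyp V g → SHyp (sp x')) ∧ ‖x' - x‖ < ε ∧ (∀ z, (z, φ z) ∈ W) ∧
          (∀ z ∈ V, sp x' (φ z) = φ (sp x z)) ∧ (∀ z ∉ D, sp x' (φ z) = φ (g z)) ∧
          (∀ z ∈ D, sp x' (φ z) ∈ φ '' V) ∧ ∀ z ∈ V, HolAt φ z := by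
  classical
  obtain ⟨z0, hz0⟩ := hKne
  have hd1 : 1 ≤ d := by omega
  have hspc := Pool.Agent.H790R3.RB.SP.sp_cont hx
  -- the point which is sent to infinity
  obtain ⟨w, hwA, hwb⟩ : ∃ w : ℂ, Attd (sp x) (w : OnePoint ℂ) ∧
      ¬ (cr (hF x (w, 1)) (w, 1) = 0 ∨ wr x (w, 1) = 0 ∨
      (∃ q : ℂ × ℂ, q ≠ 0 ∧ wr x q = 0 ∧ cr (hF x q) (w, 1) = 0) ∨
      (w : OnePoint ℂ) ∈ (∅ : Finset (OnePoint ℂ))) := by
    obtain ⟨U, hU, hUz, -, hUa⟩ := trap hspc (K := {z0}) isCompact_singleton (by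
      rintro z rfl
      exact hKa _ hz0)
    have h1 : IsOpen {w : ℂ | (w : OnePoint ℂ) ∈ U} := hU.preimage OnePoint.continuous_coe
    have h2 : {w : ℂ | (w : OnePoint ℂ) ∈ U}.Nonempty := by
      obtain ⟨z, hz1, hz2⟩ := (OnePoint.denseRange_coe (X := ℂ)).inter_open_nonempty U hU
        ⟨z0, hUz rfl⟩
      obtain ⟨w, rfl⟩ := hz2
      exact ⟨w, hz1⟩
    have h3 : {w : ℂ | (w : OnePoint ℂ) ∈ U}.Infinite := by
      obtain ⟨w, hw⟩ := h2
      exact infinite_of_mem_nhds w (h1.mem_nhds hw)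
    obtain ⟨w, hw1, hw2⟩ := (h3.sdiff (bad_finite hd x hx ∅)).nonempty
    exact ⟨w, hUa _ (subset_closure hw1), hw2⟩
  push Not at hwb
  obtain ⟨hw1, hw2, hw3, -⟩ := hwb
  obtain ⟨h, S, T, hh, hSc, hTc, hSF, hTS, hS, hT⟩ := mob (d := d) hd1 w
  set x₁ := S x with hx₁
  obtain ⟨hx₁nd, hx₁c⟩ := hS x hx
  obtain ⟨Z, lc, hg⟩ := gen_of (ginf_of hd w (hSF x) hw1 hw2 hw3)
  -- conjugacies
  have hit : ∀ (k : ℕ) (z : OnePoint ℂ), (sp x₁)^[k] (h z) = h ((sp x)^[k] z) := by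
    intro k
    induction k with
    | zero => intro z; rfl
    | succ k ih =>
      intro z
      rw [Function.iterate_succ_apply', Function.iterate_succ_apply', ih, hx₁c]
  have hAtt : ∀ z, Attd (sp x) z → Attd (sp x₁) (h z) := by
    rintro z ⟨n, a, ⟨hn, hfix, U, hU, hUV⟩, ht⟩
    refine ⟨n, h a, ⟨hn, by rw [hit, hfix], h '' U, h.isOpenMap.image_mem_nhds hU, fun V hV => ?_⟩, ?_⟩
    · have h1 : h ⁻¹' V ∈ 𝓝 a := h.continuous.continuousAt.preimage_mem_nhds hV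
      filter_upwards [hUV _ h1] with k hk
      rintro _ ⟨u, hu, rfl⟩
      rw [hit]
      exact hk u hu
    · have h1 := (h.continuous.tendsto a).comp ht
      refine h1.congr fun k => ?_
      rw [hit]
      rfl
  have hw11 : ((w : ℂ), (1 : ℂ)) ≠ 0 := fun h => one_ne_zero (congrArg Prod.snd h)
  have hhw : h (w : OnePoint ℂ) = ∞ := by
    have e1 : pr ((w : ℂ), (1 : ℂ)) = (w : OnePoint ℂ) := by
      rw [Pool.Agent.H790R3.RB.SP.pr_ne (by simp)]
      simp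
    rw [← e1, hh _ hw11]
    exact Pool.Agent.H790R3.RB.SP.pr_zero (by unfold mm; simp)
  have hinfA : Attd (sp x₁) ∞ := by
    rw [← hhw]
    exact hAtt _ hwA
  have hspc₁ := Pool.Agent.H790R3.RB.SP.sp_cont hx₁nd
  have hZA : ∀ p ∈ Z, Attd (sp x₁) (p : OnePoint ℂ) := by
    intro p hp
    refine attd_of_succ hspc₁ ?_
    rw [sp_pole x₁ ((hg.root p).1 hp)]
    exact hinfA
  -- the trapping neighbourhood
  set K₁ : Set (OnePoint ℂ) := h '' K ∪ ({∞} ∪ (↑) '' (Z : Set ℂ)) with hK₁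
  have hK₁c : IsCompact K₁ :=
    (hK.image h.continuous).union (isCompact_singleton.union
      ((Z.finite_toSet.isCompact).image OnePoint.continuous_coe))
  obtain ⟨U0, hUo, hKU, htr, hUA⟩ := trap hspc₁ hK₁c (by
    rintro z (⟨z, hz, rfl⟩ | hz | ⟨p, hp, rfl⟩)
    · exact hAtt z (hKa z hz)
    · rw [mem_singleton_iff.1 hz]
      exact hinfA
    · exact hZA p hp)
  have hinfU : ∞ ∈ U0 := hKU (Or.inr (Or.inl rfl))
  have hZU : ∀ p ∈ Z, (p : OnePoint ℂ) ∈ U0 := fun p hp => hKU (Or.inr (Or.inr ⟨p, hp, rfl⟩))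
  -- the function
  have hC0 : IsClosed {z : ℂ | sp x₁ z ∉ U0} :=
    (hUo.preimage (hspc₁.comp OnePoint.continuous_coe)).isClosed_compl
  have hC1 : IsClosed {z : ℂ | (z : OnePoint ℂ) ∈ closure U0} :=
    isClosed_closure.preimage OnePoint.continuous_coe
  have hdis : Disjoint {z : ℂ | sp x₁ z ∉ U0} {z : ℂ | (z : OnePoint ℂ) ∈ closure U0} := by
    rw [Set.disjoint_left]
    intro z h1 h2
    exact h1 (htr _ h2)
  obtain ⟨χ, hχs, -, hχ0, hχ1⟩ := exists_contMDiff_zero_iff_one_iff_of_isClosed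
    (n := (⊤ : ℕ∞)) (modelWithCornersSelf ℝ ℂ) hC0 hC1 hdis
  have hχs' : ContDiff ℝ (⊤ : ℕ∞) χ := hχs.contDiff
  -- the levels
  obtain ⟨Cr, -, hCr⟩ := crit_card hd hx₁nd
  obtain ⟨a0, b0, ha0, hab, hb1, hnc⟩ : ∃ a0 b0 : ℝ, 0 < a0 ∧ a0 < b0 ∧ b0 < 1 ∧
      ∀ t ∈ Cr.image χ, ¬ (a0 ≤ t ∧ t ≤ b0) := by
    have h1 : (Ioo (0 : ℝ) 1 \ (Cr.image χ : Set ℝ)).Nonempty :=
      ((Ioo_infinite (by norm_num : (0 : ℝ) < 1)).sdiff (Cr.image χ).finite_toSet).nonempty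
    obtain ⟨t, ht1, ht2⟩ := h1
    have h2 : Ioo (0 : ℝ) 1 \ (Cr.image χ : Set ℝ) ∈ 𝓝 t :=
      (isOpen_Ioo.sdiff (Cr.image χ).finite_toSet.isClosed).mem_nhds ⟨ht1, ht2⟩
    obtain ⟨r, hr, hrs⟩ := Metric.mem_nhds_iff.1 h2
    have h3 : ∀ s, t - r / 2 ≤ s → s ≤ t + r / 2 → s ∈ Ioo (0 : ℝ) 1 \ (Cr.image χ : Set ℝ) := by
      intro s hs1 hs2
      apply hrs
      rw [mem_ball, Real.dist_eq, abs_lt]
      constructor <;> linarith
    refine ⟨t - r / 2, t + r / 2, (h3 _ le_rfl (by linarith)).1.1, by linarith,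
      (h3 _ (by linarith) le_rfl).1.2, fun s hs hs2 => ?_⟩
    exact (h3 s hs2.1 hs2.2).2 hs
  -- the radius
  obtain ⟨ρ, hρ1, hfar, hpf⟩ : ∃ ρ : ℝ, 1 ≤ ρ ∧ (∀ z : ℂ, ρ ≤ ‖z‖ → (z : OnePoint ℂ) ∈ U0) ∧
      ∀ p ∈ Z, ‖p‖ < ρ := by
    have h1 : ∀ᶠ z : ℂ in Bornology.cobounded ℂ, (z : OnePoint ℂ) ∈ U0 := by
      have h2 := (OnePoint.tendsto_coe_infty (X := ℂ)).eventually (hUo.mem_nhds hinfU)
      rwa [coclosedCompact_eq_cocompact, ← Metric.cobounded_eq_cocompact] at h2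
    obtain ⟨r, -, hr⟩ := (Metric.hasBasis_cobounded_compl_closedBall (0 : ℂ)).eventually_iff.1 h1
    have h2 : 0 ≤ ∑ p ∈ Z, ‖p‖ := Finset.sum_nonneg fun _ _ => norm_nonneg _
    have h3 := abs_nonneg r
    refine ⟨1 + |r| + ∑ p ∈ Z, ‖p‖, by linarith, fun z hz => ?_, fun p hp => ?_⟩
    · refine hr (x := z) ?_
      rw [mem_compl_iff, mem_closedBall_zero_iff, not_le]
      have := le_abs_self r
      linarith
    · have := Finset.single_le_sum (f := fun p : ℂ => ‖p‖) (fun _ _ => norm_nonneg _) hp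
      linarith
  have D : Data x₁ U0 Z χ a0 b0 ρ := by
    refine ⟨hd, hx₁nd, hUo, hinfU, hg.root, hZU, htr, fun z hz => hUA z (subset_closure hz), hχs',
      ?_, ?_, ha0, hab, hb1, ?_, hρ1, hfar⟩
    · intro z hz
      exact (hχ1 z).1 (subset_closure hz)
    · intro z hz
      by_contra hc
      have := (hχ0 z).1 hc
      linarith
    · intro z hz1 hz2 hder
      have hq : qd x₁ z ≠ 0 := by
        intro h0
        have h1 := (hχ1 z).1 (subset_closure (hZU z ((hg.root z).2 h0)))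
        linarith
      exact hnc (χ z) (Finset.mem_image_of_mem χ (hCr z hq hder)) ⟨hz1, hz2⟩
  refine ⟨h ⁻¹' U0, h ⁻¹' Dm χ a0, hUo.preimage h.continuous,
    (Dm_closed hχs'.continuous a0).preimage h.continuous, fun z hz => hKU (Or.inl ⟨z, hz, rfl⟩),
    preimage_mono D.UD, fun z hz => ?_, fun z hz => ?_, fun ε hε W hW hWd => ?_⟩
  · show h (sp x z) ∈ U0
    rw [hx₁c]
    exact D.spD _ hz
  · have h1 := hUA _ (subset_closure (D.spD _ hz))
    rw [← hx₁c] at h1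
    refine attd_of_succ hspc ?_
    -- transfer back
    obtain ⟨n, a, ⟨hn, hfix, U, hU, hUV⟩, ht⟩ := h1
    have hit' : ∀ (k : ℕ) (z : OnePoint ℂ), (sp x)^[k] (h.symm z) = h.symm ((sp x₁)^[k] z) := by
      intro k z
      rw [Homeomorph.eq_symm_apply, ← hit, h.apply_symm_apply]
    refine ⟨n, h.symm a, ⟨hn, by rw [hit', hfix], h.symm '' U,
      h.symm.isOpenMap.image_mem_nhds hU, fun V hV => ?_⟩, ?_⟩
    · have h1 : h.symm ⁻¹' V ∈ 𝓝 a := h.symm.continuous.continuousAt.preimage_mem_nhds hV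
      filter_upwards [hUV _ h1] with k hk
      rintro _ ⟨u, hu, rfl⟩
      rw [hit']
      exact hk u hu
    · have h1 := (h.symm.continuous.tendsto a).comp ht
      refine h1.congr fun k => ?_
      rw [Function.comp_apply, ← hit', h.symm_apply_apply]
  -- the closeness
  have hTx : T x₁ = x := hTS x
  obtain ⟨ε₁, hε₁, hTε⟩ : ∃ ε₁ > 0, ∀ y, ‖y - x₁‖ < ε₁ → ‖T y - x‖ < ε := by
    have hcT : ContinuousAt T x₁ := hTc.continuousAt
    obtain ⟨ε₁, hε₁, h1⟩ := Metric.continuousAt_iff.1 hcT ε hε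
    refine ⟨ε₁, hε₁, fun y hy => ?_⟩
    have h2 := h1 (x := y) (by rwa [dist_eq_norm])
    rwa [hTx, dist_eq_norm] at h2
  have hW₁ : IsOpen ((fun q : OnePoint ℂ × OnePoint ℂ => (h.symm q.1, h.symm q.2)) ⁻¹' W) :=
    hW.preimage ((h.symm.continuous.comp continuous_fst).prodMk
      (h.symm.continuous.comp continuous_snd))
  obtain ⟨η0, hη0, hnorm⟩ := normG D hg hpf hε₁ hW₁ (fun z => hWd _)
  -- the values of the map off the trapping set
  set L : Set ℂ := fp x₁ '' closure (Om χ) with hL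
  have hOmb : Om χ ⊆ closedBall 0 ρ := by
    intro z hz
    rw [mem_closedBall_zero_iff]
    by_contra hc
    have h1 := D.χ1 z (hfar z (not_le.1 hc).le)
    have h2 : χ z < 1 := hz
    linarith
  have hOmc : IsCompact (closure (Om χ)) :=
    (isCompact_closedBall (0 : ℂ) ρ).of_isClosed_subset isClosed_closure
      (closure_minimal hOmb isClosed_closedBall)
  have hOmq : ∀ z ∈ closure (Om χ), qd x₁ z ≠ 0 := by
    intro z hz h0
    have h1 : (z : OnePoint ℂ) ∈ U0 := hZU z ((hg.root z).2 h0)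
    have h2 : {w : ℂ | (w : OnePoint ℂ) ∈ U0} ∈ 𝓝 z :=
      (hUo.preimage OnePoint.continuous_coe).mem_nhds h1
    obtain ⟨w, hw1, hw2⟩ := mem_closure_iff_nhds.1 hz _ h2
    have h3 := D.χ1 w hw1
    have h4 : χ w < 1 := hw2
    linarith
  have hLc : IsCompact L := hOmc.image_of_continuousOn fun z hz =>
    (fp_diff (hOmq z hz)).continuousAt.continuousWithinAt
  have hLcl : IsClosed ((↑) '' L : Set (OnePoint ℂ)) :=
    (hLc.image OnePoint.continuous_coe).isClosed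
  set W₂ : Set (OnePoint ℂ × OnePoint ℂ) := {q | q.1 ∉ ((↑) '' L : Set (OnePoint ℂ))} ∪
    (Prod.map (↑) (↑)) '' {p : ℂ × ℂ | ‖p.2 - p.1‖ < η0} with hW₂
  have hW₂o : IsOpen W₂ := by
    refine IsOpen.union (hLcl.isOpen_compl.preimage continuous_fst) ?_
    exact (OnePoint.isOpenMap_coe.prodMap OnePoint.isOpenMap_coe) _
      (isOpen_lt (continuous_snd.sub continuous_fst).norm continuous_const)
  have hW₂d : ∀ z, (z, z) ∈ W₂ := by
    intro z
    induction z using OnePoint.rec with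
    | infty =>
      left
      rintro ⟨w, -, hw⟩
      exact OnePoint.coe_ne_infty w hw
    | coe z =>
      right
      exact ⟨(z, z), by simpa using hη0, rfl⟩
  refine ⟨(fun q : OnePoint ℂ × OnePoint ℂ => (h q.1, h q.2)) ⁻¹' W₂,
    hW₂o.preimage ((h.continuous.comp continuous_fst).prodMk (h.continuous.comp continuous_snd)),
    fun z => hW₂d _, fun g hgh hgW => ?_⟩
  set g₁ : OnePoint ℂ → OnePoint ℂ := fun z => h (g (h.symm z)) with hg₁
  have hg₁h : ∀ z, g₁ (h z) = h (g z) := fun z => by rw [hg₁]; simp only [h.symm_apply_apply]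
  obtain ⟨γ, hγ⟩ : ∃ γ : ℂ → ℂ, ∀ z ∈ Om χ, g₁ z = (γ z : OnePoint ℂ) ∧ ‖γ z - fp x₁ z‖ < η0 := by
    have h1 : ∀ z : ℂ, ∃ v : ℂ, z ∈ Om χ → g₁ z = (v : OnePoint ℂ) ∧ ‖v - fp x₁ z‖ < η0 := by
      intro z
      by_cases hz : z ∈ Om χ
      · have hzU : (z : OnePoint ℂ) ∉ U0 := by
          intro h1
          have h2 := D.χ1 z h1
          have h3 : χ z < 1 := hz
          linarith
        have h2 := hgW (h.symm z) (by
          show h (h.symm z) ∉ U0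
          rwa [h.apply_symm_apply])
        have h3 : h (sp x (h.symm z)) = sp x₁ z := by rw [hx₁c, h.apply_symm_apply]
        have h4 : (h (sp x (h.symm z)), h (g (h.symm z))) ∈ W₂ := h2
        have h5 : sp x₁ z = (fp x₁ z : OnePoint ℂ) := sp_fin x₁ (hOmq z (subset_closure hz))
        rw [h3, h5] at h4
        rcases h4 with h4 | ⟨⟨p1, p2⟩, hp, hpe⟩
        · exact absurd ⟨fp x₁ z, ⟨z, subset_closure hz, rfl⟩, rfl⟩ h4
        · have e1 : ((p1 : ℂ) : OnePoint ℂ) = (fp x₁ z : OnePoint ℂ) := congrArg Prod.fst hpe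
          have e2 : ((p2 : ℂ) : OnePoint ℂ) = h (g (h.symm z)) := congrArg Prod.snd hpe
          refine ⟨p2, fun _ => ⟨e2.symm, ?_⟩⟩
          rw [← OnePoint.coe_injective e1]
          exact hp
      · exact ⟨0, fun h => absurd h hz⟩
    choose γ hγ using h1
    exact ⟨γ, hγ⟩
  have hnear : Near x₁ χ g₁ γ η0 := by
    refine ⟨fun z hz => ?_, fun z hz => (hγ z hz).1, fun z hz => (hγ z hz).2⟩
    refine DifferentiableAt.differentiableWithinAt (hol_fin (g := g₁) ?_ ?_)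
    · refine hol_conj' hh (hgh _ ?_)
      intro h1
      have h2 : (z : OnePoint ℂ) ∈ U0 := by
        have h3 : h (h.symm z) ∈ U0 := h1
        rwa [h.apply_symm_apply] at h3
      have h3 := D.χ1 z h2
      have h4 : χ z < 1 := hz
      linarith
    · filter_upwards [(Om_open D).mem_nhds hz] with w hw
      exact (hγ w hw).1
  obtain ⟨φ₁, x₁', hnd', hyp', hcl', hφW, hconj, hconj2, hDm, hhol⟩ := hnorm g₁ γ hnear
  obtain ⟨hTnd, hTconj⟩ := hT x₁' hnd'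
  refine ⟨(h.trans φ₁).trans h.symm, T x₁', hTnd, fun hyp => ?_,
    hTε _ hcl', ?_, ?_, ?_, ?_, ?_⟩
  · refine shyp_conj h.symm (fun z => ?_) (hyp' (out_conj h hyp))
    rw [Homeomorph.eq_symm_apply, hTconj, h.apply_symm_apply]
  · intro z
    have h1 := hφW (h z)
    simp only [mem_preimage, h.symm_apply_apply] at h1
    exact h1
  · intro z hz
    show sp (T x₁') (h.symm (φ₁ (h z))) = h.symm (φ₁ (h (sp x z)))
    rw [Homeomorph.eq_symm_apply, hTconj, h.apply_symm_apply, hconj _ hz, hx₁c]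
  · intro z hz
    show sp (T x₁') (h.symm (φ₁ (h z))) = h.symm (φ₁ (h (g z)))
    rw [Homeomorph.eq_symm_apply, hTconj, h.apply_symm_apply, hconj2 _ hz, hg₁h]
  · intro z hz
    obtain ⟨v, hv, hv2⟩ := hDm _ hz
    refine ⟨h.symm v, ?_, ?_⟩
    · show h (h.symm v) ∈ U0
      rwa [h.apply_symm_apply]
    · show h.symm (φ₁ (h (h.symm v))) = sp (T x₁') (h.symm (φ₁ (h z)))
      rw [h.apply_symm_apply, hv2, Homeomorph.symm_apply_eq, hTconj, h.apply_symm_apply]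
  · intro z hz
    exact hol_conj hh (hhol _ hz)

end Pool.Agent.Helper23V
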